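import Pool.Agent.Helper72.LS.FormDef

/-!
LS-P16: `form_bip`, `form_join` (layer 7).
-/

namespace Pool.Agent.Helper82.LS

open Finset
open scoped Classical
open Pool.Agent.Helper72.LS

/-- bipartite graph on `Fin a ⊕ Fin b` with the prescribed edges -/
def fjBip {a b : ℕ} (S : Finset (Fin a × Fin b)) : SimpleGraph (Fin a ⊕ Fin b) where
  Adj u v := match u, v with
    | Sum.inl i, Sum.inr j => (i, j) ∈ S
    | Sum.inr j, Sum.inl i => (i, j) ∈ S
    | _, _ => False
  symm := ⟨by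
    intro u v h
    rcases u with u | u <;> rcases v with v | v <;> exact h⟩
  loopless := ⟨by
    intro u h
    rcases u with u | u <;> exact h⟩

theorem fjBip_lr {a b : ℕ} (S : Finset (Fin a × Fin b)) (i : Fin a) (j : Fin b) :
    (fjBip S).Adj (Sum.inl i) (Sum.inr j) ↔ (i, j) ∈ S := Iff.rfl

theorem fjBip_rl {a b : ℕ} (S : Finset (Fin a × Fin b)) (i : Fin a) (j : Fin b) :
    (fjBip S).Adj (Sum.inr j) (Sum.inl i) ↔ (i, j) ∈ S := Iff.rfl

theorem fjBip_ll {a b : ℕ} (S : Finset (Fin a × Fin b)) (i j : Fin a) :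
    ¬ (fjBip S).Adj (Sum.inl i) (Sum.inl j) := fun h => h

theorem fjBip_rr {a b : ℕ} (S : Finset (Fin a × Fin b)) (i j : Fin b) :
    ¬ (fjBip S).Adj (Sum.inr i) (Sum.inr j) := fun h => h

theorem fj_sum_ind {a b : ℕ} (S : Finset (Fin a × Fin b)) :
    ∑ i : Fin a, ∑ j : Fin b, (if (i, j) ∈ S then (1 : ℤ) else 0) = S.card := by
  rw [← Fintype.sum_prod_type' (f := fun i j => if (i, j) ∈ S then (1 : ℤ) else 0)]
  simp

theorem fjBip_em {a b : ℕ} (S : Finset (Fin a × Fin b)) : em (fjBip S) = S.card := by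
  have h := two_em (fjBip S)
  rw [Fintype.sum_sum_type] at h
  simp only [Fintype.sum_sum_type] at h
  have h1 : ∀ i j, ad (fjBip S) (Sum.inl i) (Sum.inl j) = 0 := fun i j => by
    unfold ad; rw [if_neg (fjBip_ll S i j)]
  have h2 : ∀ i j, ad (fjBip S) (Sum.inr i) (Sum.inr j) = 0 := fun i j => by
    unfold ad; rw [if_neg (fjBip_rr S i j)]
  have h3 : ∀ i j, ad (fjBip S) (Sum.inl i) (Sum.inr j) = if (i, j) ∈ S then 1 else 0 :=
    fun i j => by unfold ad; simp only [fjBip_lr]
  have h4 : ∀ i j, ad (fjBip S) (Sum.inr j) (Sum.inl i) = if (i, j) ∈ S then 1 else 0 :=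
    fun i j => by unfold ad; simp only [fjBip_rl]
  simp only [h1, h2, h3, h4, Finset.sum_const_zero, zero_add, add_zero] at h
  rw [fj_sum_ind, Finset.sum_comm (s := (univ : Finset (Fin b))), fj_sum_ind] at h
  linarith

theorem fjBip_cf {a b : ℕ} (S : Finset (Fin a × Fin b)) : (fjBip S).CliqueFree 3 := by
  intro t ht
  rw [SimpleGraph.is3Clique_iff] at ht
  obtain ⟨x, y, z, hxy, hxz, hyz, -⟩ := ht
  rcases x with x | x <;> rcases y with y | y <;> rcases z with z | z
  · exact fjBip_ll S _ _ hxy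
  · exact fjBip_ll S _ _ hxy
  · exact fjBip_ll S _ _ hxz
  · exact fjBip_rr S _ _ hyz
  · exact fjBip_ll S _ _ hyz
  · exact fjBip_rr S _ _ hxz
  · exact fjBip_rr S _ _ hxy
  · exact fjBip_rr S _ _ hxy

theorem fj_tm_zero {V : Type} [Fintype V] {G : SimpleGraph V} (h : G.CliqueFree 3) :
    tm G = 0 := by
  unfold tm
  have : G.cliqueFinset 3 = ∅ := by
    rw [SimpleGraph.cliqueFinset_eq_empty_iff]
    exact h
  rw [this]
  rfl

theorem fj_bip_form {a b : ℕ} (ha : 1 ≤ a) (S : Finset (Fin a × Fin b)) :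
    PartiteForm (fjBip S) := by
  refine ⟨1, fun _ => 0, 0, ?_, ?_, ?_, ?_⟩
  · intro y
    exact ⟨Sum.inl ⟨0, ha⟩, Subsingleton.elim _ _⟩
  · intro u v h
    exact absurd rfl h
  · intro u v _ _
    rfl
  · exact (fjBip_cf S).comap ⟨(SimpleGraph.Embedding.induce _).toCopy⟩

theorem form_bip (a b m : ℕ) (ha : 1 ≤ a) (hm : m ≤ a * b) :
    ∃ (W : Type) (_ : Fintype W) (Γ : SimpleGraph W), Fintype.card W = a + b ∧ em Γ = m ∧
      tm Γ = 0 ∧ PartiteForm Γ := by
  have hc : m ≤ (univ : Finset (Fin a × Fin b)).card := by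
    rw [Finset.card_univ, Fintype.card_prod, Fintype.card_fin, Fintype.card_fin]
    exact hm
  obtain ⟨S, -, hS⟩ := Finset.exists_subset_card_eq hc
  refine ⟨Fin a ⊕ Fin b, inferInstance, fjBip S, ?_, ?_, ?_, ?_⟩
  · simp
  · rw [fjBip_em, hS]
  · exact fj_tm_zero (fjBip_cf S)
  · exact fj_bip_form ha S

/-- join with an independent set of size `s` -/
def fjJoin {V : Type} (G : SimpleGraph V) (s : ℕ) : SimpleGraph (V ⊕ Fin s) where
  Adj u v := match u, v with
    | Sum.inl x, Sum.inl y => G.Adj x y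
    | Sum.inl _, Sum.inr _ => True
    | Sum.inr _, Sum.inl _ => True
    | Sum.inr _, Sum.inr _ => False
  symm := ⟨by
    intro u v h
    rcases u with u | u <;> rcases v with v | v
    · exact SimpleGraph.Adj.symm (G := G) h
    · exact h
    · exact h
    · exact h⟩
  loopless := ⟨by
    intro u h
    rcases u with u | u
    · exact G.loopless.irrefl u h
    · exact h⟩

theorem fjJoin_ll {V : Type} (G : SimpleGraph V) (s : ℕ) (x y : V) :
    (fjJoin G s).Adj (Sum.inl x) (Sum.inl y) ↔ G.Adj x y := Iff.rfl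

theorem fjJoin_lr {V : Type} (G : SimpleGraph V) (s : ℕ) (x : V) (j : Fin s) :
    (fjJoin G s).Adj (Sum.inl x) (Sum.inr j) := trivial

theorem fjJoin_rl {V : Type} (G : SimpleGraph V) (s : ℕ) (x : V) (j : Fin s) :
    (fjJoin G s).Adj (Sum.inr j) (Sum.inl x) := trivial

theorem fjJoin_rr {V : Type} (G : SimpleGraph V) (s : ℕ) (i j : Fin s) :
    ¬ (fjJoin G s).Adj (Sum.inr i) (Sum.inr j) := fun h => h

theorem fj_ad_ll {V : Type} (G : SimpleGraph V) (s : ℕ) (x y : V) :
    ad (fjJoin G s) (Sum.inl x) (Sum.inl y) = ad G x y := by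
  unfold ad
  simp only [fjJoin_ll]

theorem fj_ad_lr {V : Type} (G : SimpleGraph V) (s : ℕ) (x : V) (j : Fin s) :
    ad (fjJoin G s) (Sum.inl x) (Sum.inr j) = 1 := by
  unfold ad
  rw [if_pos (fjJoin_lr G s x j)]

theorem fj_ad_rl {V : Type} (G : SimpleGraph V) (s : ℕ) (x : V) (j : Fin s) :
    ad (fjJoin G s) (Sum.inr j) (Sum.inl x) = 1 := by
  unfold ad
  rw [if_pos (fjJoin_rl G s x j)]

theorem fj_ad_rr {V : Type} (G : SimpleGraph V) (s : ℕ) (i j : Fin s) :
    ad (fjJoin G s) (Sum.inr i) (Sum.inr j) = 0 := by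
  unfold ad
  rw [if_neg (fjJoin_rr G s i j)]

theorem fj_em {V : Type} [Fintype V] (G : SimpleGraph V) (s : ℕ) :
    em (fjJoin G s) = em G + s * Fintype.card V := by
  have h := two_em (fjJoin G s)
  have h0 := two_em G
  rw [Fintype.sum_sum_type] at h
  simp only [Fintype.sum_sum_type, fj_ad_ll, fj_ad_lr, fj_ad_rl, fj_ad_rr,
    Finset.sum_const_zero, add_zero, Finset.sum_add_distrib, Finset.sum_const,
    Finset.card_univ, Fintype.card_fin, nsmul_eq_mul, mul_one] at h
  rw [← h0] at h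
  linarith

theorem fj_tm {V : Type} [Fintype V] (G : SimpleGraph V) (s : ℕ) :
    tm (fjJoin G s) = tm G + s * em G := by
  have h := six_tm (fjJoin G s)
  have h0 := six_tm G
  have h1 := two_em G
  rw [Fintype.sum_sum_type] at h
  simp only [Fintype.sum_sum_type, fj_ad_ll, fj_ad_lr, fj_ad_rl, fj_ad_rr,
    Finset.sum_const_zero, add_zero, Finset.sum_add_distrib, Finset.sum_const,
    Finset.card_univ, Fintype.card_fin, nsmul_eq_mul, mul_one, one_mul, mul_zero, zero_mul,
    ← Finset.mul_sum, ← Finset.sum_mul] at h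
  rw [← h0, ← h1] at h
  linarith

theorem form_join {V : Type} [Fintype V] (G : SimpleGraph V) (hG : PartiteForm G) (s : ℕ)
    (hs : 1 ≤ s) :
    ∃ (W : Type) (_ : Fintype W) (Γ : SimpleGraph W), Fintype.card W = Fintype.card V + s ∧
      em Γ = em G + s * Fintype.card V ∧ tm Γ = tm G + s * em G ∧ PartiteForm Γ := by
  refine ⟨V ⊕ Fin s, inferInstance, fjJoin G s, by simp, fj_em G s, fj_tm G s, ?_⟩
  obtain ⟨K, c, i, hsurj, hadj, hin, hcf⟩ := hG
  refine ⟨K + 1, Sum.elim (fun x => Fin.castSucc (c x)) (fun _ => Fin.last K),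
    Fin.castSucc i, ?_, ?_, ?_, ?_⟩
  · intro y
    refine Fin.lastCases ?_ (fun y => ?_) y
    · exact ⟨Sum.inr ⟨0, hs⟩, rfl⟩
    · obtain ⟨x, hx⟩ := hsurj y
      exact ⟨Sum.inl x, by simp [hx]⟩
  · intro u v huv
    rcases u with u | u <;> rcases v with v | v
    · refine hadj u v fun h => huv ?_
      simp [h]
    · exact fjJoin_lr G s u v
    · exact fjJoin_rl G s v u
    · exact absurd rfl huv
  · intro u v huv hc
    rcases u with u | u <;> rcases v with v | v
    · have h1 : c u = c v := by simpa using hc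
      have h2 := hin u v huv h1
      simp [h2]
    · simp only [Sum.elim_inl, Sum.elim_inr] at hc
      exact absurd hc (Fin.castSucc_lt_last _).ne
    · simp only [Sum.elim_inl, Sum.elim_inr] at hc
      exact absurd hc (Fin.castSucc_lt_last _).ne'
    · exact absurd huv (fjJoin_rr G s u v)
  · intro t ht
    rw [SimpleGraph.is3Clique_iff] at ht
    obtain ⟨x, y, z, hxy, hxz, hyz, -⟩ := ht
    have key : ∀ w : {v | Sum.elim (fun x => Fin.castSucc (c x)) (fun _ : Fin s => Fin.last K) v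
        = Fin.castSucc i}, ∃ w' : {v | c v = i}, w.1 = Sum.inl w'.1 := by
      rintro ⟨w, hw⟩
      rcases w with w | w
      · have h1 : c w = i := by simpa using hw
        exact ⟨⟨w, h1⟩, rfl⟩
      · have h1 : Fin.last K = Fin.castSucc i := hw
        exact absurd h1 (Fin.castSucc_lt_last _).ne'
    obtain ⟨x', hx'⟩ := key x
    obtain ⟨y', hy'⟩ := key y
    obtain ⟨z', hz'⟩ := key z
    have hxy' : G.Adj x'.1 y'.1 := by
      have h : (fjJoin G s).Adj x.1 y.1 := hxy
      rw [hx', hy'] at h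
      exact h
    have hxz' : G.Adj x'.1 z'.1 := by
      have h : (fjJoin G s).Adj x.1 z.1 := hxz
      rw [hx', hz'] at h
      exact h
    have hyz' : G.Adj y'.1 z'.1 := by
      have h : (fjJoin G s).Adj y.1 z.1 := hyz
      rw [hy', hz'] at h
      exact h
    refine hcf {x', y', z'} ?_
    rw [SimpleGraph.is3Clique_iff]
    exact ⟨x', y', z', hxy', hxz', hyz', rfl⟩

end Pool.Agent.Helper82.LS
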