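import Mathlib

/-!
Sums of products over arithmetic progressions of exponents: the algebra behind the isospectral
families of lens spaces.
-/

namespace Pool.Agent.Helper82.LS.Prod

open Finset

variable {R : Type*} [CommRing R] [Algebra ℂ R]

/-- the function `u ↦ ω ^ (u c)` -/
noncomputable def w (R : Type*) [CommRing R] [Algebra ℂ R] (ω : ℂ) (c : ℤ) : ℕ → R :=
  fun u => algebraMap ℂ R ((ω ^ c) ^ u)

lemma w_mul {ω : ℂ} (hω : ω ≠ 0) (a b : ℤ) : w R ω a * w R ω b = w R ω (a + b) := by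
  funext u
  simp only [Pi.mul_apply, w]
  rw [← map_mul, ← mul_pow, ← zpow_add₀ hω]

/-- functions with frequencies in `[-B, B]` -/
noncomputable def Sp (R : Type*) [CommRing R] [Algebra ℂ R] (ω : ℂ) (B : ℕ) :
    Submodule R (ℕ → R) :=
  Submodule.span R {f | ∃ c : ℤ, |c| ≤ B ∧ f = w R ω c}

lemma Sp_mono {ω : ℂ} {B B' : ℕ} (h : B ≤ B') : Sp R ω B ≤ Sp R ω B' := by
  apply Submodule.span_mono
  rintro f ⟨c, hc, rfl⟩
  exact ⟨c, hc.trans (by exact_mod_cast h), rfl⟩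

lemma w_mul_mem {ω : ℂ} (hω : ω ≠ 0) {B : ℕ} {f : ℕ → R} (hf : f ∈ Sp R ω B) {a : ℤ} {A : ℕ}
    (ha : |a| ≤ A) : w R ω a * f ∈ Sp R ω (B + A) := by
  induction hf using Submodule.span_induction with
  | mem x hx =>
    obtain ⟨c, hc, rfl⟩ := hx
    rw [w_mul hω]
    apply Submodule.subset_span
    refine ⟨a + c, ?_, rfl⟩
    refine (abs_add_le a c).trans ?_
    push_cast
    linarith
  | zero => rw [mul_zero]; exact Submodule.zero_mem _
  | add x y _ _ hx hy => rw [mul_add]; exact Submodule.add_mem _ hx hy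
  | smul r x _ hx => rw [mul_smul_comm]; exact Submodule.smul_mem _ _ hx

lemma w_zero (ω : ℂ) : w R ω 0 = 1 := by
  funext u
  simp [w]

lemma one_mem (ω : ℂ) (B : ℕ) : (1 : ℕ → R) ∈ Sp R ω B := by
  rw [← w_zero ω]
  exact Submodule.subset_span ⟨0, by simp, rfl⟩

/-- orthogonality -/
lemma sum_w {ω : ℂ} {p : ℕ} (hω : IsPrimitiveRoot ω p) {c : ℤ}
    (hc : ¬ (p : ℤ) ∣ c) : ∑ u ∈ range p, w R ω c u = 0 := by
  have h1 : ω ^ c ≠ 1 := by
    intro h
    exact hc ((hω.zpow_eq_one_iff_dvd c).mp h)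
  have h2 : (ω ^ c) ^ p = 1 := by
    rw [← zpow_natCast, ← zpow_mul, mul_comm, zpow_mul, zpow_natCast, hω.pow_eq_one, one_zpow]
  have h3 : ∑ u ∈ range p, (ω ^ c) ^ u = 0 := by
    have h4 := geom_sum_mul (ω ^ c) p
    rw [h2, sub_self] at h4
    rcases mul_eq_zero.mp h4 with h | h
    · exact h
    · exact absurd (sub_eq_zero.mp h) h1
  simp only [w]
  rw [← map_sum, h3, map_zero]

lemma sum_w_mul {ω : ℂ} {p : ℕ} (hω : IsPrimitiveRoot ω p) {B : ℕ} {f : ℕ → R}
    (hf : f ∈ Sp R ω B) {a : ℤ} (ha : (B : ℤ) < |a|) (hp : |a| + B < p) :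
    ∑ u ∈ range p, w R ω a u * f u = 0 := by
  have hp0 : p ≠ 0 := by
    rintro rfl
    have := abs_nonneg a
    push_cast at hp
    linarith [(Nat.cast_nonneg B : (0 : ℤ) ≤ B)]
  have hω0 : ω ≠ 0 := hω.ne_zero hp0
  induction hf using Submodule.span_induction with
  | mem x hx =>
    obtain ⟨c, hc, rfl⟩ := hx
    have h1 : ∀ u, w R ω a u * w R ω c u = w R ω (a + c) u := fun u => congrFun (w_mul hω0 a c) u
    simp only [h1]
    apply sum_w hω
    intro hd
    have h2 : |a + c| < p := by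
      refine (abs_add_le a c).trans_lt ?_
      linarith
    have h3 : a + c = 0 := Int.eq_zero_of_abs_lt_dvd hd h2
    have h4 : a = -c := by linarith
    rw [h4, abs_neg] at ha
    linarith
  | zero => simp
  | add x y _ _ hx hy =>
    simp only [Pi.add_apply, mul_add, sum_add_distrib, hx, hy, add_zero]
  | smul r x _ hx =>
    simp only [Pi.smul_apply, smul_eq_mul]
    have : ∀ u, w R ω a u * (r * x u) = r * (w R ω a u * x u) := fun u => by ring
    simp only [this]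
    rw [← mul_sum, hx, mul_zero]

/-- a quadratic factor `(1 - c ω^(ua) X) (1 - c⁻¹ ω^(-ua) X)` -/
noncomputable def fac (X : R) (ω c : ℂ) (a : ℤ) : ℕ → R := fun u =>
  (1 - algebraMap ℂ R (c * (ω ^ a) ^ u) * X) * (1 - algebraMap ℂ R (c * (ω ^ a) ^ u)⁻¹ * X)

lemma fac_eq (X : R) {ω c : ℂ} (hω : ω ≠ 0) (hc : c ≠ 0) (a : ℤ) (u : ℕ) :
    fac X ω c a u = (1 + X ^ 2) - algebraMap ℂ R c * X * w R ω a u
      - algebraMap ℂ R c⁻¹ * X * w R ω (-a) u := by
  have h1 : algebraMap ℂ R (c * (ω ^ a) ^ u) = algebraMap ℂ R c * w R ω a u := by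
    rw [map_mul]; rfl
  have h2 : algebraMap ℂ R (c * (ω ^ a) ^ u)⁻¹ = algebraMap ℂ R c⁻¹ * w R ω (-a) u := by
    rw [mul_inv, map_mul, ← inv_pow, ← zpow_neg]; rfl
  have h3 : (algebraMap ℂ R c * w R ω a u) * (algebraMap ℂ R c⁻¹ * w R ω (-a) u) = 1 := by
    rw [← h1, ← h2, ← map_mul, mul_inv_cancel₀, map_one]
    exact mul_ne_zero hc (pow_ne_zero _ (zpow_ne_zero _ hω))
  rw [fac, h1, h2]
  linear_combination X ^ 2 * h3

lemma fac_mul_mem (X : R) {ω c : ℂ} (hω : ω ≠ 0) (hc : c ≠ 0) {B A : ℕ} {a : ℤ} (ha : |a| ≤ A)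
    {f : ℕ → R} (hf : f ∈ Sp R ω B) : fac X ω c a * f ∈ Sp R ω (B + A) := by
  have h1 : fac X ω c a * f = (1 + X ^ 2) • f - (algebraMap ℂ R c * X) • (w R ω a * f)
      - (algebraMap ℂ R c⁻¹ * X) • (w R ω (-a) * f) := by
    funext u
    simp only [Pi.mul_apply, Pi.sub_apply, Pi.smul_apply, smul_eq_mul]
    rw [fac_eq X hω hc]
    ring
  rw [h1]
  refine Submodule.sub_mem _ (Submodule.sub_mem _ ?_ ?_) ?_
  · exact Submodule.smul_mem _ _ (Sp_mono (Nat.le_add_right _ _) hf)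
  · exact Submodule.smul_mem _ _ (w_mul_mem hω hf ha)
  · exact Submodule.smul_mem _ _ (w_mul_mem hω hf (by rwa [abs_neg]))

/-- a free factor contributes `1 + X ^ 2` -/
lemma sum_fac_mul (X : R) {ω c : ℂ} {p : ℕ} (hω : IsPrimitiveRoot ω p) (hc : c ≠ 0)
    {B : ℕ} {f : ℕ → R} (hf : f ∈ Sp R ω B) {a : ℤ} (ha : (B : ℤ) < |a|)
    (hp : |a| + B < p) :
    ∑ u ∈ range p, fac X ω c a u * f u = (1 + X ^ 2) * ∑ u ∈ range p, f u := by
  have hp0 : p ≠ 0 := by
    rintro rfl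
    have := abs_nonneg a
    push_cast at hp
    linarith [(Nat.cast_nonneg B : (0 : ℤ) ≤ B)]
  have hω0 : ω ≠ 0 := hω.ne_zero hp0
  have h1 : ∀ u, fac X ω c a u * f u = (1 + X ^ 2) * f u
      - (algebraMap ℂ R c * X) * (w R ω a u * f u)
      - (algebraMap ℂ R c⁻¹ * X) * (w R ω (-a) u * f u) := by
    intro u
    rw [fac_eq X hω0 hc]
    ring
  simp only [h1]
  rw [sum_sub_distrib, sum_sub_distrib, ← mul_sum, ← mul_sum, ← mul_sum, sum_w_mul hω hf ha hp,
    sum_w_mul hω hf (a := -a) (by rwa [abs_neg]) (by rwa [abs_neg])]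
  ring

/-- The key identity: lacunary factors all contribute `1 + X ^ 2`. -/
theorem sum_prod (X : R) {ω : ℂ} {p : ℕ} (hω : IsPrimitiveRoot ω p) {B : ℕ} {f : ℕ → R}
    (hf : f ∈ Sp R ω B) (κ : ℕ) (a : ℕ → ℕ) (c : ℕ → ℂ) (hc : ∀ i, c i ≠ 0)
    (ha : ∀ i < κ, B + ∑ j ∈ range i, a j < a i) (hp : B + ∑ j ∈ range κ, a j < p) :
    (fun u => f u * ∏ i ∈ range κ, fac X ω (c i) (a i) u) ∈ Sp R ω (B + ∑ j ∈ range κ, a j) ∧
    ∑ u ∈ range p, f u * ∏ i ∈ range κ, fac X ω (c i) (a i) u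
      = (1 + X ^ 2) ^ κ * ∑ u ∈ range p, f u := by
  have hω0 : ω ≠ 0 := hω.ne_zero (by omega)
  induction κ with
  | zero => simpa using hf
  | succ κ ih =>
    rw [sum_range_succ] at hp
    obtain ⟨ih1, ih2⟩ := ih (fun i hi => ha i (by omega)) (by omega)
    have h1 : (fun u => f u * ∏ i ∈ range (κ + 1), fac X ω (c i) (a i) u)
        = fac X ω (c κ) (a κ) * (fun u => f u * ∏ i ∈ range κ, fac X ω (c i) (a i) u) := by
      funext u
      rw [Pi.mul_apply, prod_range_succ]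
      ring
    constructor
    · rw [h1, sum_range_succ, ← add_assoc]
      exact fac_mul_mem X hω0 (hc κ) (by simp) ih1
    · have h2 := sum_fac_mul X hω (hc κ) ih1 (a := (a κ : ℤ)) (by
        have := ha κ (by omega)
        rw [Nat.abs_cast]
        exact_mod_cast this) (by
        rw [Nat.abs_cast]
        have : a κ + (B + ∑ j ∈ range κ, a j) < p := by omega
        exact_mod_cast this)
      rw [ih2] at h2
      rw [pow_succ', mul_assoc, ← h2]
      refine sum_congr rfl fun u _ => ?_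
      exact congrFun h1 u

/-- a product of `k` factors with frequency `± 1` has frequencies in `[-k, k]` -/
lemma prod_mem (X : R) {ω : ℂ} (hω : ω ≠ 0) {ι : Type*} (s : Finset ι) (c : ι → ℂ)
    (hc : ∀ i, c i ≠ 0) : (fun u => ∏ i ∈ s, fac X ω (c i) 1 u) ∈ Sp R ω s.card := by
  classical
  induction s using Finset.induction_on with
  | empty =>
    have h : (fun u : ℕ => ∏ i ∈ (∅ : Finset ι), fac X ω (c i) 1 u) = 1 := by
      funext u; simp
    rw [h, card_empty]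
    exact one_mem ω 0
  | insert i s hi ih =>
    rw [card_insert_of_notMem hi]
    have h1 : (fun u => ∏ j ∈ insert i s, fac X ω (c j) 1 u)
        = fac X ω (c i) 1 * (fun u => ∏ j ∈ s, fac X ω (c j) 1 u) := by
      funext u
      rw [Pi.mul_apply, prod_insert hi]
    rw [h1]
    exact fac_mul_mem X hω (hc i) (by simp) ih

end Pool.Agent.Helper82.LS.Prod
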