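import Mathlib
import Pool.Agent.Helper82.LS.Prod

/-!
The exponents of the isospectral families of lens spaces.
-/

namespace Pool.Agent.Helper82.LS.Fam

open Finset PowerSeries
open Pool.Agent.Helper82.LS.Prod

/-- index set of the exponents: `m` full blocks, one block without `z` elements, `κ` blocks
without one element; a full block has `r + 1` elements -/
abbrev Ix (r z κ m : ℕ) := (Fin m × Fin (r + 1)) ⊕ (Fin (r + 1 - z) ⊕ (Fin κ × Fin r))

/-- the exponents -/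
def ex (Q : ℕ) (a : ℕ → ℕ) {r z κ m : ℕ} (t : Fin κ → Fin (r + 1)) : Ix r z κ m → ℕ
  | Sum.inl x => 1 + Q * x.2
  | Sum.inr (Sum.inl j) => 1 + Q * j
  | Sum.inr (Sum.inr x) => a x.1 + Q * ((t x.1).succAbove x.2)

/-- the extension of `t` to all natural numbers -/
def ext {r κ : ℕ} (t : Fin κ → Fin (r + 1)) (i : ℕ) : ℕ := if h : i < κ then t ⟨i, h⟩ else 0

lemma ext_fin {r κ : ℕ} (t : Fin κ → Fin (r + 1)) (i : Fin κ) : ext t i = t i := by
  rw [ext, dif_pos i.2]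

lemma prod_ex {M : Type*} [CommMonoid M] (F : ℕ → M) (Q : ℕ) (a : ℕ → ℕ) {r z κ m : ℕ}
    (hz : z ≤ r + 1) (t : Fin κ → Fin (r + 1)) :
    (∏ x : Ix r z κ m, F (ex Q a t x)) *
      ((∏ j ∈ Ico (r + 1 - z) (r + 1), F (1 + Q * j)) *
        ∏ i ∈ range κ, F (a i + Q * ext t i))
      = (∏ j ∈ range (r + 1), F (1 + Q * j)) ^ (m + 1) *
        ∏ i ∈ range κ, ∏ j ∈ range (r + 1), F (a i + Q * j) := by
  rw [Fintype.prod_sum_type, Fintype.prod_sum_type, Fintype.prod_prod_type, Fintype.prod_prod_type]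
  simp only [ex]
  rw [prod_const, card_univ, Fintype.card_fin]
  have h1 : ∏ j : Fin (r + 1), F (1 + Q * j) = ∏ j ∈ range (r + 1), F (1 + Q * j) :=
    (Finset.prod_range (fun j => F (1 + Q * j))).symm
  have h2 : ∏ j : Fin (r + 1 - z), F (1 + Q * j) = ∏ j ∈ range (r + 1 - z), F (1 + Q * j) :=
    (Finset.prod_range (fun j => F (1 + Q * j))).symm
  have h3 : (∏ j ∈ range (r + 1 - z), F (1 + Q * j)) *
      ∏ j ∈ Ico (r + 1 - z) (r + 1), F (1 + Q * j) = ∏ j ∈ range (r + 1), F (1 + Q * j) :=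
    Finset.prod_range_mul_prod_Ico _ (by omega)
  have h4 : ∏ i ∈ range κ, F (a i + Q * ext t i) = ∏ i : Fin κ, F (a i + Q * t i) := by
    rw [Finset.prod_range]
    exact Finset.prod_congr rfl fun i _ => by rw [ext_fin]
  have h5 : ∏ i ∈ range κ, ∏ j ∈ range (r + 1), F (a i + Q * j)
      = ∏ i : Fin κ, (F (a i + Q * t i) * ∏ j : Fin r, F (a i + Q * (t i).succAbove j)) := by
    rw [Finset.prod_range]
    refine Finset.prod_congr rfl fun i _ => ?_
    rw [Finset.prod_range, Fin.prod_univ_succAbove (fun j : Fin (r + 1) => F (a i + Q * j)) (t i)]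
  rw [h1, h2, h4, h5, prod_mul_distrib, pow_succ, ← h3]
  ac_rfl

/-- the quadratic factor with exponent `x` -/
noncomputable def Pf (γ : ℂ) (x : ℕ) : ℂ⟦X⟧ :=
  (1 - algebraMap ℂ ℂ⟦X⟧ (γ ^ x) * X) * (1 - algebraMap ℂ ℂ⟦X⟧ (γ ^ x)⁻¹ * X)

lemma constantCoeff_Pf (γ : ℂ) (x : ℕ) : constantCoeff (Pf γ x) = 1 := by
  simp [Pf]

section data

variable {γ : ℂ} {r Q : ℕ}

lemma gamma_pow (hγ : γ ^ ((r + 1) * Q) = 1) (hQ : (r + 1) ∣ Q) (l u a j : ℕ) :
    γ ^ ((l + Q * u) * (a + Q * j)) = γ ^ (l * (a + Q * j)) * ((γ ^ Q) ^ (a : ℤ)) ^ u := by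
  obtain ⟨c, rfl⟩ := hQ
  have h1 : ∀ k, γ ^ ((r + 1) * ((r + 1) * c) * k) = 1 := by
    intro k; rw [pow_mul, hγ, one_pow]
  rw [zpow_natCast, ← pow_mul, ← pow_mul, ← pow_add]
  have h2 : (l + (r + 1) * c * u) * (a + (r + 1) * c * j)
      = (l * (a + (r + 1) * c * j) + (r + 1) * c * a * u) + (r + 1) * ((r + 1) * c) * (c * u * j) := by
    ring
  rw [h2, pow_add, h1, mul_one, mul_assoc ((r + 1) * c) a u]

lemma Pf_eq_fac (hγ : γ ^ ((r + 1) * Q) = 1) (hQ : (r + 1) ∣ Q) (l u a j : ℕ) :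
    Pf γ ((l + Q * u) * (a + Q * j))
      = fac (X : ℂ⟦X⟧) (γ ^ Q) (γ ^ (l * (a + Q * j))) a u := by
  rw [Pf, fac, gamma_pow hγ hQ]

/-- the product over a full block depends only on the exponent modulo `Q` -/
lemma block (hp : (r + 1).Prime) (hγ : γ ^ ((r + 1) * Q) = 1) (hQ : (r + 1) ∣ Q) {l : ℕ}
    (hl : ¬ (r + 1) ∣ l) (u a : ℕ) :
    ∏ j ∈ range (r + 1), Pf γ ((l + Q * u) * (a + Q * j))
      = ∏ x ∈ range (r + 1), Pf γ (l * a + Q * x) := by
  have h1 : ∀ j, Pf γ ((l + Q * u) * (a + Q * j)) = Pf γ (l * a + Q * ((l * j + u * a) % (r + 1))) := by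
    intro j
    have h2 : γ ^ ((l + Q * u) * (a + Q * j)) = γ ^ (l * a + Q * ((l * j + u * a) % (r + 1))) := by
      obtain ⟨c, hc⟩ := hQ
      have h3 : ∀ k, γ ^ ((r + 1) * Q * k) = 1 := by
        intro k; rw [pow_mul, hγ, one_pow]
      have h4 : (l + Q * u) * (a + Q * j) = (l * a + Q * (l * j + u * a)) + (r + 1) * Q * (c * u * j) := by
        calc (l + Q * u) * (a + Q * j) = (l * a + Q * (l * j + u * a)) + Q * Q * (u * j) := by ring
          _ = (l * a + Q * (l * j + u * a)) + Q * ((r + 1) * c) * (u * j) := by rw [← hc]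
          _ = _ := by ring
      rw [h4, pow_add, h3, mul_one]
      conv_lhs => rw [← Nat.mod_add_div (l * j + u * a) (r + 1)]
      have h5 : l * a + Q * ((l * j + u * a) % (r + 1) + (r + 1) * ((l * j + u * a) / (r + 1)))
          = l * a + Q * ((l * j + u * a) % (r + 1)) + (r + 1) * Q * ((l * j + u * a) / (r + 1)) := by
        ring
      rw [h5, pow_add, h3, mul_one]
    rw [Pf, Pf, h2]
  simp only [h1]
  have hinj : Set.InjOn (fun j => (l * j + u * a) % (r + 1)) (range (r + 1)) := by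
    intro j hj j' hj' h
    have hj2 := mem_range.mp hj
    have hj3 := mem_range.mp hj'
    have h2 : l * j + u * a ≡ l * j' + u * a [MOD (r + 1)] := h
    have h3 : l * j ≡ l * j' [MOD (r + 1)] := Nat.ModEq.add_right_cancel' _ h2
    have h4 : j ≡ j' [MOD (r + 1)] :=
      Nat.ModEq.cancel_left_of_coprime ((Nat.Prime.coprime_iff_not_dvd hp).mpr hl) h3
    exact Nat.ModEq.eq_of_lt_of_lt h4 hj2 hj3
  have himg : (range (r + 1)).image (fun j => (l * j + u * a) % (r + 1)) = range (r + 1) := by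
    apply Finset.eq_of_subset_of_card_le
    · intro x hx
      rw [mem_image] at hx
      obtain ⟨j, _, rfl⟩ := hx
      exact mem_range.mpr (Nat.mod_lt _ (Nat.succ_pos r))
    · rw [card_image_of_injOn hinj]
  conv_rhs => rw [← himg]
  rw [prod_image hinj]

/-- the product of the factors belonging to the removed exponents -/
noncomputable def rem (γ : ℂ) (Q : ℕ) (a : ℕ → ℕ) {r κ : ℕ} (z : ℕ) (t : Fin κ → Fin (r + 1))
    (l : ℕ) : ℂ⟦X⟧ :=
  (∏ j ∈ Ico (r + 1 - z) (r + 1), Pf γ (l * (1 + Q * j))) *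
    ∏ i ∈ range κ, Pf γ (l * (a i + Q * ext t i))

lemma sum_rem (hγ : IsPrimitiveRoot γ ((r + 1) * Q)) (hQ : (r + 1) ∣ Q)
    (hQ0 : 0 < Q) {a : ℕ → ℕ} {κ z : ℕ} (hz : z ≤ r + 1)
    (ha : ∀ i < κ, z + ∑ j ∈ range i, a j < a i) (hap : z + ∑ j ∈ range κ, a j < r + 1)
    (t : Fin κ → Fin (r + 1)) (l : ℕ) :
    ∑ u ∈ range (r + 1), rem γ Q a z t (l + Q * u)
      = (1 + X ^ 2) ^ κ *
        ∑ u ∈ range (r + 1), ∏ j ∈ Ico (r + 1 - z) (r + 1), Pf γ ((l + Q * u) * (1 + Q * j)) := by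
  have hγ1 := hγ.pow_eq_one
  have hpos : 0 < (r + 1) * Q := Nat.mul_pos (Nat.succ_pos r) hQ0
  have hγ0 : γ ≠ 0 := hγ.ne_zero hpos.ne'
  have hω : IsPrimitiveRoot (γ ^ Q) (r + 1) := hγ.pow hpos (mul_comm _ _)
  have h1 : (fun u => ∏ j ∈ Ico (r + 1 - z) (r + 1), Pf γ ((l + Q * u) * (1 + Q * j)))
      = fun u => ∏ j ∈ Ico (r + 1 - z) (r + 1),
        fac (X : ℂ⟦X⟧) (γ ^ Q) (γ ^ (l * (1 + Q * j))) 1 u := by
    funext u
    refine prod_congr rfl fun j _ => ?_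
    rw [Pf_eq_fac hγ1 hQ, Nat.cast_one]
  have h2 : (fun u => ∏ j ∈ Ico (r + 1 - z) (r + 1), Pf γ ((l + Q * u) * (1 + Q * j)))
      ∈ Sp ℂ⟦X⟧ (γ ^ Q) z := by
    rw [h1]
    have h3 := prod_mem (X : ℂ⟦X⟧) (pow_ne_zero Q hγ0) (Ico (r + 1 - z) (r + 1))
      (fun j => γ ^ (l * (1 + Q * j))) (fun j => pow_ne_zero _ hγ0)
    rw [Nat.card_Ico] at h3
    have h4 : r + 1 - (r + 1 - z) = z := by omega
    rwa [h4] at h3
  have h3 := (sum_prod (X : ℂ⟦X⟧) hω h2 κ a (fun i => γ ^ (l * (a i + Q * ext t i)))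
    (fun i => pow_ne_zero _ hγ0) ha hap).2
  rw [← h3]
  refine sum_congr rfl fun u _ => ?_
  have h4 : ∏ i ∈ range κ, Pf γ ((l + Q * u) * (a i + Q * ext t i))
      = ∏ i ∈ range κ, fac (X : ℂ⟦X⟧) (γ ^ Q) (γ ^ (l * (a i + Q * ext t i))) (a i) u :=
    prod_congr rfl fun i _ => by rw [Pf_eq_fac hγ1 hQ]
  rw [rem, h4]

/-- The isospectrality identity. -/
theorem sum_ser (hp : (r + 1).Prime) (hγ : IsPrimitiveRoot γ ((r + 1) * Q)) (hQ : (r + 1) ∣ Q)
    (hQ0 : 0 < Q) {a : ℕ → ℕ} {κ z m : ℕ} (hz : z ≤ r + 1)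
    (ha : ∀ i < κ, z + ∑ j ∈ range i, a j < a i) (hap : z + ∑ j ∈ range κ, a j < r + 1)
    (t t' : Fin κ → Fin (r + 1)) (s s' : ℕ → ℂ⟦X⟧)
    (hs : ∀ l, (∏ x : Ix r z κ m, Pf γ (l * ex Q a t x)) * s l = 1)
    (hs' : ∀ l, (∏ x : Ix r z κ m, Pf γ (l * ex Q a t' x)) * s' l = 1) :
    ∑ l ∈ range ((r + 1) * Q), s l = ∑ l ∈ range ((r + 1) * Q), s' l := by
  have hγ1 := hγ.pow_eq_one
  -- the case of exponents divisible by `p`
  have hdiv : ∀ l, (r + 1) ∣ l → s l = s' l := by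
    intro l hl
    have h1 : ∀ b j, Pf γ (l * (b + Q * j)) = Pf γ (l * b) := by
      intro b j
      obtain ⟨c, rfl⟩ := hl
      have h2 : (r + 1) * c * (b + Q * j) = (r + 1) * c * b + (r + 1) * Q * (c * j) := by ring
      have h3 : γ ^ ((r + 1) * c * (b + Q * j)) = γ ^ ((r + 1) * c * b) := by
        rw [h2, pow_add, pow_mul γ ((r + 1) * Q), hγ1, one_pow, mul_one]
      rw [Pf, Pf, h3]
    have h2 : (∏ x : Ix r z κ m, Pf γ (l * ex Q a t x)) = ∏ x : Ix r z κ m, Pf γ (l * ex Q a t' x) := by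
      refine prod_congr rfl fun x _ => ?_
      rcases x with x | x | x
      · rfl
      · rfl
      · simp only [ex]; rw [h1, h1]
    have h3 := hs l
    have h4 := hs' l
    rw [← h2] at h4
    exact mul_left_cancel₀ (left_ne_zero_of_mul_eq_one h3) (h3.trans h4.symm)
  -- the other exponents
  have hnd : ∀ l, ¬ (r + 1) ∣ l →
      ∑ u ∈ range (r + 1), s (l + Q * u) = ∑ u ∈ range (r + 1), s' (l + Q * u) := by
    intro l hl
    set D : ℂ⟦X⟧ := (∏ x ∈ range (r + 1), Pf γ (l * 1 + Q * x)) ^ (m + 1) *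
      ∏ i ∈ range κ, ∏ x ∈ range (r + 1), Pf γ (l * a i + Q * x) with hD
    have hD0 : D ≠ 0 := by
      intro h0
      have h1 : constantCoeff D = 1 := by
        rw [hD, map_mul, map_pow, map_prod, map_prod]
        simp only [constantCoeff_Pf, map_prod, prod_const_one, one_pow, mul_one]
      rw [h0, map_zero] at h1
      exact zero_ne_one h1
    have hDU : ∀ (t : Fin κ → Fin (r + 1)) u,
        (∏ x : Ix r z κ m, Pf γ ((l + Q * u) * ex Q a t x)) * rem γ Q a z t (l + Q * u) = D := by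
      intro t u
      have h1 := prod_ex (m := m) (fun x => Pf γ ((l + Q * u) * x)) Q a hz t
      have h2 : ∏ i ∈ range κ, ∏ j ∈ range (r + 1), Pf γ ((l + Q * u) * (a i + Q * j))
          = ∏ i ∈ range κ, ∏ x ∈ range (r + 1), Pf γ (l * a i + Q * x) :=
        prod_congr rfl fun i _ => block hp hγ1 hQ hl u (a i)
      rw [rem, h1, block hp hγ1 hQ hl u 1, h2]
    have hk : ∀ (t : Fin κ → Fin (r + 1)) (s : ℕ → ℂ⟦X⟧)
        (_ : ∀ l, (∏ x : Ix r z κ m, Pf γ (l * ex Q a t x)) * s l = 1) u,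
        D * s (l + Q * u) = rem γ Q a z t (l + Q * u) := by
      intro t s hs u
      rw [← hDU t u]
      have h1 := hs (l + Q * u)
      calc (∏ x : Ix r z κ m, Pf γ ((l + Q * u) * ex Q a t x)) * rem γ Q a z t (l + Q * u)
            * s (l + Q * u)
          = ((∏ x : Ix r z κ m, Pf γ ((l + Q * u) * ex Q a t x)) * s (l + Q * u))
            * rem γ Q a z t (l + Q * u) := by ring
        _ = rem γ Q a z t (l + Q * u) := by rw [h1, one_mul]
    apply mul_left_cancel₀ hD0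
    rw [mul_sum, mul_sum]
    simp only [hk t s hs, hk t' s' hs']
    rw [sum_rem hγ hQ hQ0 hz ha hap, sum_rem hγ hQ hQ0 hz ha hap]
  -- assembly
  have hsplit : ∀ f : ℕ → ℂ⟦X⟧, ∑ l ∈ range ((r + 1) * Q), f l
      = ∑ l ∈ range Q, ∑ u ∈ range (r + 1), f (l + Q * u) := by
    intro f
    rw [sum_comm, mul_comm (r + 1) Q]
    induction (r + 1) with
    | zero => simp
    | succ n ih =>
      rw [Nat.mul_succ, sum_range_add, ih, sum_range_succ]
      congr 1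
      exact sum_congr rfl fun x _ => by rw [add_comm]
  rw [hsplit, hsplit]
  refine sum_congr rfl fun l _ => ?_
  by_cases hl : (r + 1) ∣ l
  · refine sum_congr rfl fun u _ => hdiv _ ?_
    exact (Nat.dvd_add_right hl).mpr (hQ.mul_right u)
  · exact hnd l hl

end data

end Pool.Agent.Helper82.LS.Fam
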