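import Mathlib
import Pool.Agent.Helper78.Geom

/-!
Isometric spherical space forms have conjugate groups.
-/

namespace Pool.Agent.Helper82.LS.Lift

open Pool.Agent.Helper78.Geom Pool.Agent.Helper78.Eigen Pool.Agent.Helper78.Assembly
open InnerProductGeometry

variable {d : ℕ}

/-- angle of two points of the sphere -/
noncomputable def ang (x y : S d) : ℝ := angle (x : E d) (y : E d)

lemma norm_S (x : S d) : ‖(x : E d)‖ = 1 := mem_sphere_zero_iff_norm.mp x.2

lemma ang_self (x : S d) : ang x x = 0 := by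
  apply angle_self
  intro h
  have := norm_S x
  rw [h, norm_zero] at this
  exact zero_ne_one this

lemma ang_comm (x y : S d) : ang x y = ang y x := angle_comm _ _

lemma ang_nonneg (x y : S d) : 0 ≤ ang x y := angle_nonneg _ _

lemma ang_triangle (x y z : S d) : ang x z ≤ ang x y + ang y z := by
  exact angle_le_angle_add_angle _ _ _

lemma ang_appS (g : O d) (x y : S d) : ang (appS g x) (appS g y) = ang x y := angle_app g _ _

lemma cos_ang (x y : S d) : Real.cos (ang x y) = inner ℝ (x : E d) (y : E d) := by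
  rw [ang, InnerProductGeometry.cos_angle, norm_S, norm_S, one_mul, div_one]

lemma ang_eq_of_inner {x y x' y' : S d}
    (h : (inner ℝ (x : E d) (y : E d) : ℝ) = inner ℝ (x' : E d) (y' : E d)) :
    ang x y = ang x' y' := by
  unfold ang angle
  rw [h, norm_S, norm_S, norm_S, norm_S]

lemma inner_eq_of_ang {x y x' y' : S d} (h : ang x y = ang x' y') :
    (inner ℝ (x : E d) (y : E d) : ℝ) = inner ℝ (x' : E d) (y' : E d) := by
  rw [← cos_ang, ← cos_ang, h]

lemma ang_pos {x y : S d} (h : x ≠ y) : 0 < ang x y := by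
  rcases (ang_nonneg x y).lt_or_eq with h1 | h1
  · exact h1
  · exfalso
    apply h
    have h2 : (inner ℝ (x : E d) (y : E d) : ℝ) = 1 := by
      rw [← cos_ang, ← h1, Real.cos_zero]
    apply Subtype.ext
    exact (inner_eq_one_iff_of_norm_eq_one (norm_S x) (norm_S y)).mp h2

lemma continuous_ang : Continuous fun p : S d × S d => ang p.1 p.2 := by
  rw [continuous_iff_continuousAt]
  rintro ⟨x, y⟩
  have hx : (x : E d) ≠ 0 := by
    intro h; have := norm_S x; rw [h, norm_zero] at this; exact zero_ne_one this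
  have hy : (y : E d) ≠ 0 := by
    intro h; have := norm_S y; rw [h, norm_zero] at this; exact zero_ne_one this
  have h1 := continuousAt_angle (x := ((x : E d), (y : E d))) hx hy
  have h2 : ContinuousAt (fun p : S d × S d => ((p.1 : E d), (p.2 : E d))) (x, y) := by
    fun_prop
  exact ContinuousAt.comp (f := fun p : S d × S d => ((p.1 : E d), (p.2 : E d))) h1 h2

lemma continuous_ang_left (x : S d) : Continuous fun y : S d => ang x y :=
  continuous_ang.comp (g := fun p : S d × S d => ang p.1 p.2) (f := fun y : S d => (x, y))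
    (continuous_const.prodMk continuous_id)

lemma continuous_appS (g : O d) : Continuous (appS g : S d → S d) := by
  apply Continuous.subtype_mk
  unfold app
  have h1 : Continuous fun x : S d => (WithLp.ofLp (x : E d)) :=
    (PiLp.continuous_ofLp 2 _).comp continuous_subtype_val
  have h2 : Continuous fun x : S d => ((g : Matrix (Fin (d + 1)) (Fin (d + 1)) ℝ).mulVec
      (WithLp.ofLp (x : E d))) := Continuous.matrix_mulVec continuous_const h1
  exact (PiLp.continuous_toLp 2 _).comp h2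

/-- points close in angle form neighbourhoods -/
lemma ball_mem (x : S d) {r : ℝ} (hr : 0 < r) : {y : S d | ang x y < r} ∈ nhds x := by
  have h1 := continuous_ang_left x
  have h2 : IsOpen {y : S d | ang x y < r} := isOpen_lt h1 continuous_const
  exact h2.mem_nhds (by rw [Set.mem_ofPred_eq, ang_self]; exact hr)

/-- neighbourhoods contain balls in angle -/
lemma exists_ball {x : S d} {U : Set (S d)} (hU : U ∈ nhds x) :
    ∃ r : ℝ, 0 < r ∧ ∀ y, ang x y < r → y ∈ U := by
  by_contra hcon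
  push Not at hcon
  have h1 : ∀ n : ℕ, ∃ y, ang x y < 1 / ((n : ℝ) + 1) ∧ y ∉ U := fun n =>
    hcon _ (by positivity)
  choose y hy hyU using h1
  obtain ⟨z, _, φ, hφ, hz⟩ := isCompact_univ.tendsto_subseq (fun n => Set.mem_univ (y n))
  have h2 : Filter.Tendsto (fun n => ang x (y (φ n))) Filter.atTop (nhds (ang x z)) := by
    exact ((continuous_ang_left x).tendsto z).comp hz
  have h3 : Filter.Tendsto (fun n => ang x (y (φ n))) Filter.atTop (nhds 0) := by
    refine squeeze_zero (fun n => ang_nonneg _ _) (fun n => (hy (φ n)).le) ?_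
    exact tendsto_one_div_add_atTop_nhds_zero_nat.comp hφ.tendsto_atTop
  have h4 : ang x z = 0 := tendsto_nhds_unique h2 h3
  have h5 : z = x := by
    by_contra hne
    have := ang_pos (Ne.symm hne)
    linarith
  rw [h5] at hz
  obtain ⟨n, hn⟩ := (hz.eventually hU).exists
  exact hyU (φ n) hn

/-- orbits -/
lemma orb_eq_iff {Γ : Subgroup (O d)} {x y : S d} :
    orb Γ x = orb Γ y ↔ ∃ g ∈ Γ, appS g x = y := by
  constructor
  · intro h
    have h1 := Quot.eqvGen_exact h
    clear h
    induction h1 with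
    | rel x y h =>
      obtain ⟨g, hg, hgy⟩ := h
      exact ⟨g, hg, Subtype.ext hgy⟩
    | refl x => exact ⟨1, one_mem _, appS_one x⟩
    | symm x y _ ih =>
      obtain ⟨g, hg, rfl⟩ := ih
      refine ⟨g⁻¹, inv_mem hg, ?_⟩
      rw [← appS_mul, inv_mul_cancel, appS_one]
    | trans x y z _ _ ih ih' =>
      obtain ⟨g, hg, rfl⟩ := ih
      obtain ⟨g', hg', rfl⟩ := ih'
      exact ⟨g' * g, mul_mem hg' hg, appS_mul g' g x⟩
  · rintro ⟨g, hg, rfl⟩
    exact orb_eq_of ⟨g, hg, rfl⟩

lemma orb_appS {Γ : Subgroup (O d)} {g : O d} (hg : g ∈ Γ) (x : S d) :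
    orb Γ (appS g x) = orb Γ x := (orb_eq_iff.mpr ⟨g, hg, rfl⟩).symm

/-- a uniform lower bound for displacements -/
lemma exists_inj {Γ : Subgroup (O d)} (hΓ : IsSpaceFormGroup Γ) :
    ∃ r : ℝ, 0 < r ∧ ∀ g ∈ Γ, g ≠ 1 → ∀ x : S d, r ≤ ang x (appS g x) := by
  have : Finite Γ := hΓ.1
  have h1 : ∀ g : Γ, ∃ r : ℝ, 0 < r ∧ ((g : O d) ≠ 1 → ∀ x : S d, r ≤ ang x (appS g x)) := by
    intro g
    by_cases hg : (g : O d) = 1
    · exact ⟨1, one_pos, fun h => absurd hg h⟩
    · have hc : Continuous fun x : S d => ang x (appS (g : O d) x) :=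
        continuous_ang.comp (g := fun p : S d × S d => ang p.1 p.2)
          (f := fun x : S d => (x, appS (g : O d) x))
          (continuous_id.prodMk (continuous_appS (g : O d)))
      by_cases hne : Nonempty (S d)
      · obtain ⟨x0, _, hx0⟩ := isCompact_univ.exists_isMinOn (Set.univ_nonempty) hc.continuousOn
        refine ⟨ang x0 (appS g x0), ang_pos ?_, fun _ x => hx0 (Set.mem_univ x)⟩
        intro h
        exact hΓ.2 g g.2 hg x0 (congrArg Subtype.val h).symm
      · exact ⟨1, one_pos, fun _ x => absurd ⟨x⟩ hne⟩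
  choose r hr hr2 using h1
  have : Fintype Γ := Fintype.ofFinite Γ
  refine ⟨Finset.univ.inf' ⟨1, Finset.mem_univ _⟩ r, ?_, fun g hg hg1 x => ?_⟩
  · rw [Finset.lt_inf'_iff]
    exact fun g _ => hr g
  · exact (Finset.inf'_le r (Finset.mem_univ (⟨g, hg⟩ : Γ))).trans (hr2 ⟨g, hg⟩ hg1 x)

/-- the quotient distance is a minimum -/
lemma qdist_le {Γ : Subgroup (O d)} (x y : S d) : qdist Γ (orb Γ x) (orb Γ y) ≤ ang x y := by
  apply csInf_le
  · exact ⟨0, by rintro a ⟨x, y, _, _, rfl⟩; exact angle_nonneg _ _⟩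
  · exact ⟨x, y, rfl, rfl, rfl⟩

lemma exists_qdist {Γ : Subgroup (O d)} (hΓ : Finite Γ) (x y : S d) :
    ∃ g ∈ Γ, qdist Γ (orb Γ x) (orb Γ y) = ang x (appS g y) := by
  have hset : {a : ℝ | ∃ x' y' : S d, orb Γ x' = orb Γ x ∧ orb Γ y' = orb Γ y ∧
      a = angle (x' : E d) (y' : E d)} = Set.range fun g : Γ => ang x (appS g y) := by
    ext a
    constructor
    · rintro ⟨x', y', hx, hy, rfl⟩
      obtain ⟨g, hg, rfl⟩ := orb_eq_iff.mp hx.symm
      obtain ⟨g', hg', rfl⟩ := orb_eq_iff.mp hy.symm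
      refine ⟨⟨g⁻¹ * g', mul_mem (inv_mem hg) hg'⟩, ?_⟩
      change ang x (appS (g⁻¹ * g') y) = ang (appS g x) (appS g' y)
      rw [← ang_appS g x, ← appS_mul, mul_inv_cancel_left]
    · rintro ⟨g, rfl⟩
      exact ⟨x, appS g y, rfl, orb_appS g.2 y, rfl⟩
  have hfin : (Set.range fun g : Γ => ang x (appS g y)).Finite := Set.finite_range _
  have hne : (Set.range fun g : Γ => ang x (appS g y)).Nonempty := ⟨_, ⟨1, rfl⟩⟩
  obtain ⟨g, hg⟩ := hne.csInf_mem hfin
  refine ⟨g, g.2, ?_⟩
  rw [qdist, hset]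
  exact hg.symm

/-- locally the quotient distance is the distance -/
lemma qdist_eq {Γ : Subgroup (O d)} (hΓ : Finite Γ) {r : ℝ}
    (hr : ∀ g ∈ Γ, g ≠ 1 → ∀ x : S d, r ≤ ang x (appS g x)) {x y : S d}
    (hxy : 2 * ang x y ≤ r) : qdist Γ (orb Γ x) (orb Γ y) = ang x y := by
  obtain ⟨g, hg, h⟩ := exists_qdist hΓ x y
  apply le_antisymm (qdist_le x y)
  rw [h]
  by_cases hg1 : g = 1
  · rw [hg1, appS_one]
  · have h1 := hr g hg hg1 y
    have h2 := ang_triangle y x (appS g y)
    rw [ang_comm y x] at h2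
    linarith

end Pool.Agent.Helper82.LS.Lift
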