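import Mathlib
import Pool.Agent.Helper82.LS.Lift

/-!
Isometric spherical space forms have conjugate groups, second part.
-/

namespace Pool.Agent.Helper82.LS.Lift

open Pool.Agent.Helper78.Geom Pool.Agent.Helper78.Eigen Pool.Agent.Helper78.Assembly
open InnerProductGeometry

variable {d : ℕ}

/-- the linear map of an orthogonal matrix -/
noncomputable def appL (g : O d) : E d →ₗ[ℝ] E d :=
  Matrix.toEuclideanLin (g : Matrix (Fin (d + 1)) (Fin (d + 1)) ℝ)

lemma appL_apply (g : O d) (x : E d) : appL g x = app g x := rfl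

lemma appL_injective : Function.Injective (appL : O d → E d →ₗ[ℝ] E d) := by
  intro g h hgh
  apply Subtype.ext
  exact Matrix.toEuclideanLin.injective hgh

/-- points of the sphere near a given point span the space -/
lemma span_ball (x : S d) {r : ℝ} (hr : 0 < r) :
    ⊤ ≤ Submodule.span ℝ {y : E d | ∃ s : S d, (s : E d) = y ∧ ang x s < r} := by
  intro v _
  obtain ⟨V, hV⟩ : ∃ V, V = Submodule.span ℝ {y : E d | ∃ s : S d, (s : E d) = y ∧ ang x s < r} :=
    ⟨_, rfl⟩
  rw [← hV]
  have hx0 : (x : E d) ≠ 0 := by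
    intro h; have := norm_S x; rw [h, norm_zero] at this; exact zero_ne_one this
  have hxV : (x : E d) ∈ V := by
    rw [hV]
    exact Submodule.subset_span ⟨x, rfl, by rw [ang_self]; exact hr⟩
  have hc : ContinuousAt (fun ε : ℝ => ((x : E d), (x : E d) + ε • v)) 0 := by
    fun_prop
  have h1 : ContinuousAt (fun p : E d × E d => angle p.1 p.2) ((x : E d), (x : E d) + (0 : ℝ) • v) := by
    apply continuousAt_angle hx0
    rw [zero_smul, add_zero]
    exact hx0
  have h2 : ContinuousAt (fun ε : ℝ => angle (x : E d) ((x : E d) + ε • v)) 0 :=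
    ContinuousAt.comp (f := fun ε : ℝ => ((x : E d), (x : E d) + ε • v)) h1 hc
  have h3 : ∀ᶠ ε in nhds (0 : ℝ), angle (x : E d) ((x : E d) + ε • v) < r := by
    apply h2.eventually_lt continuousAt_const
    rw [zero_smul, add_zero, angle_self hx0]
    exact hr
  have h4 : ∀ᶠ ε in nhds (0 : ℝ), (x : E d) + ε • v ≠ 0 := by
    have h5 : ContinuousAt (fun ε : ℝ => (x : E d) + ε • v) 0 := by fun_prop
    apply h5.eventually_ne
    rw [zero_smul, add_zero]
    exact hx0
  obtain ⟨δ, hδ, hδ2⟩ := Metric.eventually_nhds_iff.mp (h3.and h4)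
  have h6 : dist (δ / 2) (0 : ℝ) < δ := by
    rw [Real.dist_0_eq_abs, abs_of_pos (by positivity)]
    linarith
  obtain ⟨h7, h8⟩ := hδ2 h6
  have hn : 0 < ‖(x : E d) + (δ / 2) • v‖ := norm_pos_iff.mpr h8
  have h9 : ‖(x : E d) + (δ / 2) • v‖⁻¹ • ((x : E d) + (δ / 2) • v) ∈ V := by
    rw [hV]
    refine Submodule.subset_span ⟨⟨_, ?_⟩, rfl, ?_⟩
    · rw [mem_sphere_zero_iff_norm, norm_smul, norm_inv, norm_norm, inv_mul_cancel₀ hn.ne']
    · rw [ang, angle_smul_right_of_pos _ _ (inv_pos.mpr hn)]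
      exact h7
  have h10 : (x : E d) + (δ / 2) • v ∈ V := by
    have := V.smul_mem ‖(x : E d) + (δ / 2) • v‖ h9
    rwa [smul_smul, mul_inv_cancel₀ hn.ne', one_smul] at this
  have h11 : (δ / 2) • v ∈ V := by
    have := V.sub_mem h10 hxV
    rwa [add_sub_cancel_left] at this
  have := V.smul_mem (δ / 2)⁻¹ h11
  rwa [smul_smul, inv_mul_cancel₀ (by positivity), one_smul] at this

/-- two orthogonal matrices which agree near a point are equal -/
lemma eq_of_local {B C : O d} {x : S d} {r : ℝ} (hr : 0 < r)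
    (h : ∀ y, ang x y < r → appS B y = appS C y) : B = C := by
  apply appL_injective
  apply LinearMap.ext_on (top_le_iff.mp (span_ball x hr))
  rintro y ⟨s, rfl, hs⟩
  exact congrArg Subtype.val (h s hs)

/-- the uniqueness lemma -/
lemma unique {Γ : Subgroup (O d)} {r : ℝ} (hr0 : 0 < r)
    (hr : ∀ g ∈ Γ, g ≠ 1 → ∀ x : S d, r ≤ ang x (appS g x)) {B C : O d} {x : S d} {δ : ℝ}
    (hδ : 0 < δ) (h : ∀ y, ang x y < δ → orb Γ (appS B y) = orb Γ (appS C y)) :
    ∃ g ∈ Γ, g * B = C := by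
  obtain ⟨g, hg, hgx⟩ := orb_eq_iff.mp (h x (by rw [ang_self]; exact hδ))
  refine ⟨g, hg, ?_⟩
  apply eq_of_local (x := x) (r := min δ (r / 2)) (lt_min hδ (by positivity))
  intro y hy
  obtain ⟨g', hg', hgy⟩ := orb_eq_iff.mp (h y (hy.trans_le (min_le_left _ _)))
  have hy2 : ang x y < r / 2 := hy.trans_le (min_le_right _ _)
  by_cases hgg : g * g'⁻¹ = 1
  · have : g = g' := mul_inv_eq_one.mp hgg
    rw [this, appS_mul, hgy]
  · exfalso
    have h1 := hr _ (mul_mem hg (inv_mem hg')) hgg (appS C y)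
    have h2 : appS (g * g'⁻¹) (appS C y) = appS g (appS B y) := by
      rw [← hgy, appS_mul, ← appS_mul g'⁻¹ g', inv_mul_cancel, appS_one]
    rw [h2] at h1
    have h3 := ang_triangle (appS C y) (appS C x) (appS g (appS B y))
    rw [ang_appS, ← hgx, ang_appS, ang_appS, ang_comm y x] at h3
    linarith

/-- a linear map preserving inner products is given by an orthogonal matrix -/
lemma exists_orth (A : E d →ₗ[ℝ] E d) (hA : ∀ u v, (inner ℝ (A u) (A v) : ℝ) = inner ℝ u v) :
    ∃ g : O d, ∀ x, app g x = A x := by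
  obtain ⟨M, hM⟩ : ∃ M : Matrix (Fin (d + 1)) (Fin (d + 1)) ℝ, Matrix.toEuclideanLin M = A :=
    Matrix.toEuclideanLin.surjective A
  have hent : ∀ i k, (A (EuclideanSpace.single i 1)) k = M k i := by
    intro i k
    rw [← hM]
    simp [Matrix.toLpLin_apply]
  have hO : M ∈ Matrix.orthogonalGroup (Fin (d + 1)) ℝ := by
    rw [Matrix.mem_orthogonalGroup_iff']
    ext i j
    rw [Matrix.mul_apply]
    have h1 := hA (EuclideanSpace.single i 1) (EuclideanSpace.single j 1)
    rw [PiLp.inner_apply] at h1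
    simp only [hent] at h1
    have h2 : (inner ℝ (EuclideanSpace.single i (1 : ℝ)) (EuclideanSpace.single j (1 : ℝ)) : ℝ)
        = (1 : Matrix (Fin (d + 1)) (Fin (d + 1)) ℝ) i j := by
      rw [EuclideanSpace.inner_single_left, PiLp.single_apply, Matrix.one_apply]
      simp
    rw [← h2, ← h1]
    refine Finset.sum_congr rfl fun k _ => ?_
    rw [Matrix.transpose_apply]
    simp [mul_comm]
  refine ⟨⟨M, hO⟩, fun x => ?_⟩
  rw [← hM]
  rfl

/-- local isometries of the sphere are restrictions of orthogonal maps -/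
lemma exists_local {x : S d} {r : ℝ} (hr : 0 < r) (f : S d → S d)
    (hf : ∀ y z, ang x y < r → ang x z < r → ang (f y) (f z) = ang y z) :
    ∃ A : O d, ∀ y, ang x y < r → f y = appS A y := by
  have hs := span_ball x hr
  obtain ⟨b, hb⟩ : ∃ b : Module.Basis _ ℝ (E d), b = Module.Basis.ofSpan hs := ⟨_, rfl⟩
  have hbs : ∀ i, ∃ s : S d, (s : E d) = b i ∧ ang x s < r := by
    intro i
    have := Module.Basis.ofSpan_subset hs (Set.mem_range_self i)
    rw [← hb] at this
    exact this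
  choose s hs1 hs2 using hbs
  obtain ⟨A, hAdef⟩ : ∃ A : E d →ₗ[ℝ] E d, A = b.constr ℝ (fun i => (f (s i) : E d)) := ⟨_, rfl⟩
  have hAb : ∀ i, A (b i) = (f (s i) : E d) := by
    intro i
    rw [hAdef, Module.Basis.constr_basis]
  have hA : ∀ u v, (inner ℝ (A u) (A v) : ℝ) = inner ℝ u v := by
    have h1 : (innerₗ (E d)).compl₁₂ A A = innerₗ (E d) := by
      apply LinearMap.ext_basis b b
      intro i j
      rw [LinearMap.compl₁₂_apply, hAb, hAb, innerₗ_apply_apply, innerₗ_apply_apply, ← hs1, ← hs1]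
      exact inner_eq_of_ang (hf _ _ (hs2 i) (hs2 j))
    intro u v
    have h2 := congrArg (fun B => B u v) h1
    simpa [LinearMap.compl₁₂_apply] using h2
  obtain ⟨g, hg⟩ := exists_orth A hA
  refine ⟨g, fun y hy => ?_⟩
  apply Subtype.ext
  change (f y : E d) = app g y
  rw [hg]
  have hinj : Function.Injective A := by
    rw [← LinearMap.ker_eq_bot, LinearMap.ker_eq_bot']
    intro v hv
    have := hA v v
    rw [hv, inner_zero_left] at this
    exact inner_self_eq_zero.mp this.symm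
  have hsurj : Function.Surjective A := LinearMap.surjective_of_injective hinj
  have key : ∀ v, (inner ℝ (f y : E d) (A v) : ℝ) = inner ℝ (A y) (A v) := by
    intro v
    rw [hA]
    have h1 : (innerₗ (E d) (f y : E d)).comp A = innerₗ (E d) (y : E d) := by
      apply b.ext
      intro i
      rw [LinearMap.comp_apply, hAb, innerₗ_apply_apply, innerₗ_apply_apply, ← hs1]
      exact inner_eq_of_ang (hf _ _ hy (hs2 i))
    have h2 := congrArg (fun B => B v) h1
    simpa using h2
  refine ext_inner_right ℝ fun w => ?_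
  obtain ⟨v, rfl⟩ := hsurj w
  exact key v

/-- Isometric spherical space forms of dimension at least one have conjugate groups. -/
theorem conj_of_isometric (hd : 1 ≤ d) {Γ Γ' : Subgroup (O d)} (hΓ : IsSpaceFormGroup Γ)
    (hΓ' : IsSpaceFormGroup Γ') (h : Isometric Γ Γ') : Conj Γ Γ' := by
  obtain ⟨φ, hφ⟩ := h
  obtain ⟨r₁, hr₁, hr₁'⟩ := exists_inj hΓ
  obtain ⟨r₂, hr₂, hr₂'⟩ := exists_inj hΓ'
  obtain ⟨r, hrdef⟩ : ∃ r, r = min r₁ r₂ := ⟨_, rfl⟩
  have hr0 : 0 < r := by rw [hrdef]; exact lt_min hr₁ hr₂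
  have hr : ∀ g ∈ Γ, g ≠ 1 → ∀ x : S d, r ≤ ang x (appS g x) := fun g hg hg1 x =>
    (hrdef.le.trans (min_le_left _ _)).trans (hr₁' g hg hg1 x)
  have hr' : ∀ g ∈ Γ', g ≠ 1 → ∀ x : S d, r ≤ ang x (appS g x) := fun g hg hg1 x =>
    (hrdef.le.trans (min_le_right _ _)).trans (hr₂' g hg hg1 x)
  have hloc : ∀ x : S d, ∃ A : O d, ∀ y, ang x y < r / 8 → φ (orb Γ y) = orb Γ' (appS A y) := by
    intro x
    obtain ⟨y₀, hy₀⟩ := Quot.exists_rep (φ (orb Γ x))
    have hy₀' : orb Γ' y₀ = φ (orb Γ x) := hy₀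
    have h1 : ∀ y : S d, ∃ z : S d, orb Γ' z = φ (orb Γ y) ∧ ang y₀ z ≤ ang x y := by
      intro y
      obtain ⟨w, hw⟩ := Quot.exists_rep (φ (orb Γ y))
      have hw' : orb Γ' w = φ (orb Γ y) := hw
      obtain ⟨g, hg, hgw⟩ := exists_qdist hΓ'.1 y₀ w
      refine ⟨appS g w, (orb_appS hg w).trans hw', ?_⟩
      rw [← hgw, hy₀', hw', hφ]
      exact qdist_le x y
    choose f hf1 hf2 using h1
    have hf : ∀ y z, ang x y < r / 8 → ang x z < r / 8 → ang (f y) (f z) = ang y z := by
      intro y z hy hz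
      have h3 : 2 * ang (f y) (f z) ≤ r := by
        have h4 := ang_triangle (f y) y₀ (f z)
        rw [ang_comm (f y) y₀] at h4
        have h5 := hf2 y
        have h6 := hf2 z
        linarith
      have h4 : 2 * ang y z ≤ r := by
        have h5 := ang_triangle y x z
        rw [ang_comm y x] at h5
        linarith
      rw [← qdist_eq hΓ'.1 hr' h3, hf1, hf1, hφ, qdist_eq hΓ.1 hr h4]
    obtain ⟨A, hA⟩ := exists_local (by positivity) f hf
    exact ⟨A, fun y hy => by rw [← hA y hy, hf1]⟩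
  have hrank : 1 < Module.rank ℝ (E d) := by
    rw [rank_eq_card_basis (EuclideanSpace.basisFun (Fin (d + 1)) ℝ).toBasis, Fintype.card_fin]
    exact_mod_cast (by omega : 1 < d + 1)
  have hpre : PreconnectedSpace (S d) :=
    isPreconnected_iff_preconnectedSpace.mp (isPreconnected_sphere hrank (0 : E d) 1)
  obtain ⟨x₀⟩ : Nonempty (S d) := by
    refine ⟨⟨EuclideanSpace.single 0 1, ?_⟩⟩
    rw [mem_sphere_zero_iff_norm]
    simp
  obtain ⟨Q, hQ⟩ := hloc x₀
  obtain ⟨T, hT⟩ : ∃ T : Set (S d), T = {x | ∃ δ : ℝ, 0 < δ ∧ ∀ y, ang x y < δ →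
      φ (orb Γ y) = orb Γ' (appS Q y)} := ⟨_, rfl⟩
  have hball : ∀ (x : S d) (δ : ℝ), IsOpen {y : S d | ang x y < δ} := fun x δ =>
    isOpen_lt (continuous_ang_left x) continuous_const
  have hopen : IsOpen T := by
    rw [isOpen_iff_mem_nhds]
    intro x hx
    rw [hT] at hx
    obtain ⟨δ, hδ, h1⟩ := hx
    refine Filter.mem_of_superset ((hball x (δ / 2)).mem_nhds ?_) ?_
    · rw [Set.mem_ofPred_eq, ang_self]; positivity
    · intro z hz
      rw [Set.mem_ofPred_eq] at hz
      rw [hT]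
      refine ⟨δ / 2, by positivity, fun y hy => h1 y ?_⟩
      have := ang_triangle x z y
      linarith
  have hclosed : IsClosed T := by
    rw [← isOpen_compl_iff, isOpen_iff_mem_nhds]
    intro z hz
    obtain ⟨A, hA⟩ := hloc z
    refine Filter.mem_of_superset ((hball z (r / 8)).mem_nhds ?_) ?_
    · rw [Set.mem_ofPred_eq, ang_self]; positivity
    · intro w hw hwT
      rw [Set.mem_ofPred_eq] at hw
      rw [hT] at hwT
      obtain ⟨δ, hδ, h1⟩ := hwT
      apply hz
      have hm : 0 < min δ (r / 8 - ang z w) := lt_min hδ (by linarith)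
      obtain ⟨g, hg, hgA⟩ := unique (Γ := Γ') hr0 hr' (B := A) (C := Q) (x := w) hm (by
        intro y hy
        have h2 := lt_of_lt_of_le hy (min_le_left _ _)
        have h3 := lt_of_lt_of_le hy (min_le_right _ _)
        rw [← h1 y h2, ← hA y (by have := ang_triangle z w y; linarith)])
      rw [hT]
      refine ⟨r / 8, by positivity, fun y hy => ?_⟩
      rw [hA y hy, ← hgA, appS_mul, orb_appS hg]
  have hall : ∀ x, φ (orb Γ x) = orb Γ' (appS Q x) := by
    have h1 : T = Set.univ := IsClopen.eq_univ ⟨hclosed, hopen⟩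
      ⟨x₀, by rw [hT]; exact ⟨r / 8, by positivity, hQ⟩⟩
    intro x
    have h2 : x ∈ T := by rw [h1]; exact Set.mem_univ x
    rw [hT] at h2
    obtain ⟨δ, hδ, h3⟩ := h2
    exact h3 x (by rw [ang_self]; exact hδ)
  refine ⟨Q, fun z => ⟨fun hz => ?_, fun hz => ?_⟩⟩
  · obtain ⟨g, hg, hgC⟩ := unique (Γ := Γ) hr0 hr (B := 1) (C := Q⁻¹ * z * Q) (x := x₀) one_pos (by
      intro y _
      apply φ.injective
      rw [hall, hall, ← appS_mul, ← appS_mul]
      have : Q * (Q⁻¹ * z * Q) = z * Q := by group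
      rw [this, mul_one, appS_mul z Q, orb_appS hz])
    rw [← hgC, mul_one]
    exact hg
  · obtain ⟨g, hg, hgC⟩ := unique (Γ := Γ') hr0 hr' (B := Q) (C := z * Q) (x := x₀) one_pos (by
      intro y _
      have h2 : appS (z * Q) y = appS Q (appS (Q⁻¹ * z * Q) y) := by
        rw [← appS_mul]
        congr 1
        group
      rw [h2, ← hall, ← hall, orb_appS hz])
    have : z = g := (mul_right_cancel hgC).symm
    rw [this]
    exact hg

end Pool.Agent.Helper82.LS.Lift
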