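import Mathlib
import Pool.Agent.Helper78.Geom
import Pool.Agent.Helper78.Molien

/-!
Orthogonal matrices with rotation blocks.
-/

namespace Pool.Agent.Helper82.LS.Rot

open Matrix Finset
open Pool.Agent.Helper78.Eigen Pool.Agent.Helper78.Molien

variable {ι : Type*} [Fintype ι] [DecidableEq ι] {N : ℕ} (e : Fin 2 × ι ≃ Fin N)

/-- block diagonal matrix of rotations -/
noncomputable def blk (θ : ι → ℝ) : Matrix (Fin 2 × ι) (Fin 2 × ι) ℝ :=
  Matrix.blockDiagonal fun i =>
    !![Real.cos (θ i), -Real.sin (θ i); Real.sin (θ i), Real.cos (θ i)]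

lemma blk_mul (θ θ' : ι → ℝ) : blk θ * blk θ' = blk (θ + θ') := by
  rw [blk, blk, blk, ← Matrix.blockDiagonal_mul]
  congr 1
  funext i
  rw [Pi.add_apply, Real.cos_add, Real.sin_add]
  ext a b
  fin_cases a <;> fin_cases b <;> simp [Matrix.mul_apply, Fin.sum_univ_two] <;> ring

omit [Fintype ι] in
lemma blk_zero : blk (0 : ι → ℝ) = 1 := by
  rw [blk, ← Matrix.blockDiagonal_one]
  congr 1
  funext i
  ext a b
  fin_cases a <;> fin_cases b <;> simp

omit [Fintype ι] in
lemma blk_transpose (θ : ι → ℝ) : (blk θ)ᵀ = blk (-θ) := by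
  rw [blk, blk, Matrix.blockDiagonal_transpose]
  congr 1
  funext i
  rw [Pi.neg_apply, Real.cos_neg, Real.sin_neg, neg_neg]
  ext a b
  fin_cases a <;> fin_cases b <;> simp

/-- the rotation matrix in `O(N)` -/
noncomputable def rot (θ : ι → ℝ) : Og N := ⟨Matrix.reindex e e (blk θ), by
  rw [Matrix.mem_orthogonalGroup_iff]
  rw [Matrix.transpose_reindex, blk_transpose, Matrix.reindex_apply, Matrix.reindex_apply,
    Matrix.submatrix_mul_equiv, blk_mul, add_neg_cancel, blk_zero, Matrix.submatrix_one_equiv]⟩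

lemma rot_coe (θ : ι → ℝ) :
    ((rot e θ : Og N) : Matrix (Fin N) (Fin N) ℝ) = (blk θ).submatrix e.symm e.symm := rfl

lemma rot_add (θ θ' : ι → ℝ) : rot e (θ + θ') = rot e θ * rot e θ' := by
  apply Subtype.ext
  rw [Submonoid.coe_mul, rot_coe, rot_coe, rot_coe, Matrix.submatrix_mul_equiv, blk_mul]

lemma rot_zero : rot e (0 : ι → ℝ) = 1 := by
  apply Subtype.ext
  rw [rot_coe, blk_zero, Matrix.submatrix_one_equiv]
  rfl

lemma rot_pow (θ : ι → ℝ) (l : ℕ) : rot e θ ^ l = rot e (fun i => l * θ i) := by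
  induction l with
  | zero =>
    rw [pow_zero, ← rot_zero e]
    congr 1
    funext i
    simp
  | succ l ih =>
    rw [pow_succ, ih, ← rot_add]
    congr 1
    funext i
    rw [Pi.add_apply]
    push_cast
    ring

/-- the eigenvalues -/
noncomputable def eig (θ : ι → ℝ) (x : Fin 2 × ι) : ℂ :=
  if x.1 = 0 then Complex.exp (θ x.2 * Complex.I) else (Complex.exp (θ x.2 * Complex.I))⁻¹

lemma mulVec_blk (θ : ι → ℝ) (v : Fin 2 × ι → ℝ) (i : ι) :
    (blk θ).mulVec v (0, i) = Real.cos (θ i) * v (0, i) - Real.sin (θ i) * v (1, i) ∧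
    (blk θ).mulVec v (1, i) = Real.sin (θ i) * v (0, i) + Real.cos (θ i) * v (1, i) := by
  constructor
  · simp only [Matrix.mulVec, dotProduct, Fintype.sum_prod_type, blk, Matrix.blockDiagonal_apply,
      Fin.sum_univ_two, ite_mul, zero_mul, Finset.sum_ite_eq, Finset.mem_univ, if_true]
    simp
    ring
  · simp only [Matrix.mulVec, dotProduct, Fintype.sum_prod_type, blk, Matrix.blockDiagonal_apply,
      Fin.sum_univ_two, ite_mul, zero_mul, Finset.sum_ite_eq, Finset.mem_univ, if_true]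
    simp

omit [DecidableEq ι] [Fintype ι] in
lemma exp_eq_one {x : ℝ} (h : Real.cos x = 1) : Complex.exp (x * Complex.I) = 1 := by
  have h1 : Real.sin x = 0 := by
    have := Real.sin_sq_add_cos_sq x
    rw [h] at this
    have h2 : Real.sin x ^ 2 = 0 := by linarith
    exact pow_eq_zero_iff (two_ne_zero) |>.mp h2
  rw [Complex.exp_mul_I, ← Complex.ofReal_cos, ← Complex.ofReal_sin, h, h1]
  simp

lemma rot_eq_one {θ : ι → ℝ} (h : rot e θ = 1) (i : ι) : Complex.exp (θ i * Complex.I) = 1 := by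
  apply exp_eq_one
  have h1 : (blk θ).submatrix e.symm e.symm = (1 : Matrix (Fin N) (Fin N) ℝ) :=
    congrArg Subtype.val h
  have h2 := congrFun (congrFun h1 (e (0, i))) (e (0, i))
  rw [Matrix.submatrix_apply, Equiv.symm_apply_apply, Matrix.one_apply_eq, blk,
    Matrix.blockDiagonal_apply_eq] at h2
  simpa using h2

/-- a fixed vector gives an eigenvalue one -/
lemma fixed {θ : ι → ℝ} {v : Fin N → ℝ} (hv : v ≠ 0)
    (h : ((rot e θ : Og N) : Matrix (Fin N) (Fin N) ℝ).mulVec v = v) :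
    ∃ i, Complex.exp (θ i * Complex.I) = 1 := by
  have h1 : (blk θ).mulVec (v ∘ e) = v ∘ e := by
    rw [rot_coe, Matrix.submatrix_mulVec_equiv] at h
    funext x
    have h2 := congrFun h (e x)
    simpa using h2
  obtain ⟨k, hk⟩ := Function.ne_iff.mp hv
  obtain ⟨⟨b, i⟩, rfl⟩ := e.surjective k
  refine ⟨i, exp_eq_one ?_⟩
  obtain ⟨h2, h3⟩ := mulVec_blk θ (v ∘ e) i
  rw [h1] at h2 h3
  simp only [Function.comp_apply] at h2 h3
  have h4 : 0 < v (e (0, i)) ^ 2 + v (e (1, i)) ^ 2 := by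
    have h5 : v (e (b, i)) ≠ 0 := hk
    fin_cases b
    · have : v (e (0, i)) ≠ 0 := h5
      positivity
    · have : v (e (1, i)) ≠ 0 := h5
      positivity
  have h5 : Real.cos (θ i) * (v (e (0, i)) ^ 2 + v (e (1, i)) ^ 2)
      = 1 * (v (e (0, i)) ^ 2 + v (e (1, i)) ^ 2) := by
    linear_combination -(v (e (0, i))) * h2 - v (e (1, i)) * h3
  exact mul_right_cancel₀ h4.ne' h5

/-- the matrix of eigenvectors -/
noncomputable def Um (ι : Type*) [DecidableEq ι] : Matrix (Fin 2 × ι) (Fin 2 × ι) ℂ :=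
  Matrix.blockDiagonal fun _ => !![1, 1; -Complex.I, Complex.I]

lemma Um_mul : Um ι * Matrix.blockDiagonal (fun _ : ι => !![1 / 2, Complex.I / 2; 1 / 2, -Complex.I / 2])
    = 1 := by
  rw [Um, ← Matrix.blockDiagonal_mul, ← Matrix.blockDiagonal_one]
  congr 1
  funext i
  ext a b
  fin_cases a <;> fin_cases b <;>
    simp [Matrix.mul_apply, Fin.sum_univ_two] <;> ring_nf <;> simp [Complex.I_sq]

lemma blk_Um (θ : ι → ℝ) : (blk θ).map Complex.ofReal * Um ι = Um ι * Matrix.diagonal (eig θ) := by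
  have h1 : Matrix.diagonal (eig θ) = Matrix.blockDiagonal fun i =>
      Matrix.diagonal fun b : Fin 2 => eig θ (b, i) := by
    rw [Matrix.blockDiagonal_diagonal]
  rw [h1, Um, blk, Matrix.blockDiagonal_map _ _ (Complex.ofReal_zero), ← Matrix.blockDiagonal_mul,
    ← Matrix.blockDiagonal_mul]
  congr 1
  funext i
  have h2 : eig θ (0, i) = Complex.cos (θ i) + Complex.sin (θ i) * Complex.I := by
    rw [eig, if_pos rfl, Complex.exp_mul_I]
  have h3 : eig θ (1, i) = Complex.cos (θ i) - Complex.sin (θ i) * Complex.I := by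
    rw [eig, if_neg (by simp), ← Complex.exp_neg]
    have : -(((θ i : ℝ) : ℂ) * Complex.I) = (-((θ i : ℝ) : ℂ)) * Complex.I := by ring
    rw [this, Complex.exp_mul_I, Complex.cos_neg, Complex.sin_neg]
    ring
  ext a b
  fin_cases a <;> fin_cases b <;>
    simp [Matrix.mul_apply, Fin.sum_univ_two, h2, h3] <;> ring_nf <;> simp [Complex.I_sq]

lemma toC_rot (θ : ι → ℝ) : toC N (rot e θ) * (Um ι).submatrix e.symm e.symm
    = (Um ι).submatrix e.symm e.symm * Matrix.diagonal (eig θ ∘ e.symm) := by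
  have h1 : toC N (rot e θ) = ((blk θ).map Complex.ofReal).submatrix e.symm e.symm := by
    rw [toC_eq, rot_coe, Matrix.submatrix_map]
  have h2 : Matrix.diagonal (eig θ ∘ e.symm) = (Matrix.diagonal (eig θ)).submatrix e.symm e.symm := by
    rw [Matrix.submatrix_diagonal_equiv]
  rw [h1, h2, Matrix.submatrix_mul_equiv, Matrix.submatrix_mul_equiv, blk_Um]

lemma isUnit_Um : IsUnit ((Um ι).submatrix e.symm e.symm : Matrix (Fin N) (Fin N) ℂ) := by
  rw [Matrix.isUnit_submatrix_equiv, Matrix.isUnit_iff_isUnit_det]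
  have h1 := congrArg Matrix.det (Um_mul (ι := ι))
  rw [Matrix.det_mul, Matrix.det_one] at h1
  exact IsUnit.of_mul_eq_one _ h1

lemma ev_rot (θ : ι → ℝ) : ev (rot e θ) = (univ : Finset (Fin N)).val.map (eig θ ∘ e.symm) :=
  ev_of_diag (isUnit_Um e) (toC_rot e θ)

lemma prod_ev_rot {M : Type*} [CommMonoid M] (θ : ι → ℝ) (f : ℂ → M) :
    ((ev (rot e θ)).map f).prod = ∏ i, (f (Complex.exp (θ i * Complex.I)) *
      f (Complex.exp (θ i * Complex.I))⁻¹) := by
  rw [ev_rot, Multiset.map_map]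
  have h1 : (Multiset.map (f ∘ (eig θ ∘ e.symm)) (univ : Finset (Fin N)).val).prod
      = ∏ j : Fin N, f (eig θ (e.symm j)) := rfl
  rw [h1, Equiv.prod_comp e.symm (fun x => f (eig θ x)), Fintype.prod_prod_type_right]
  refine prod_congr rfl fun i _ => ?_
  rw [Fin.prod_univ_two, eig, eig, if_pos rfl, if_neg (by simp)]

/-! ### lens groups -/

/-- the generator with rotation angles `2 π s i / q` -/
noncomputable def gen (q : ℕ) (s : ι → ℕ) : Og N := rot e fun i => 2 * Real.pi * s i / q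

/-- the primitive root `exp (2 π i / q)` -/
noncomputable def root (q : ℕ) : ℂ := Complex.exp (2 * Real.pi * Complex.I / q)

lemma root_prim {q : ℕ} (hq : q ≠ 0) : IsPrimitiveRoot (root q) q :=
  Complex.isPrimitiveRoot_exp q hq

lemma exp_ang (q l k : ℕ) :
    Complex.exp (((l * (2 * Real.pi * k / q) : ℝ) : ℂ) * Complex.I) = root q ^ (l * k) := by
  rw [root, ← Complex.exp_nat_mul]
  congr 1
  push_cast
  ring

lemma gen_pow (q : ℕ) (s : ι → ℕ) (l : ℕ) :
    gen e q s ^ l = rot e fun i => l * (2 * Real.pi * s i / q) := rot_pow e _ l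

lemma ev_gen_pow {M : Type*} [CommMonoid M] (q : ℕ) (s : ι → ℕ) (l : ℕ) (f : ℂ → M) :
    ((ev (gen e q s ^ l)).map f).prod = ∏ i, (f (root q ^ (l * s i)) *
      f (root q ^ (l * s i))⁻¹) := by
  rw [gen_pow, prod_ev_rot]
  refine prod_congr rfl fun i _ => ?_
  rw [exp_ang]

lemma mem_ev_gen {q : ℕ} {s : ι → ℕ} {x : ℂ} :
    x ∈ ev (gen e q s) ↔ ∃ i, x = root q ^ s i ∨ x = (root q ^ s i)⁻¹ := by
  have h0 : ∀ i, Complex.exp (((2 * Real.pi * s i / q : ℝ) : ℂ) * Complex.I) = root q ^ s i := by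
    intro i
    have := exp_ang q 1 (s i)
    rwa [Nat.cast_one, one_mul, one_mul] at this
  rw [gen, ev_rot, Multiset.mem_map]
  constructor
  · rintro ⟨j, _, rfl⟩
    refine ⟨(e.symm j).2, ?_⟩
    rw [Function.comp_apply, eig, h0]
    by_cases h : (e.symm j).1 = 0
    · rw [if_pos h]; left; rfl
    · rw [if_neg h]; right; rfl
  · rintro ⟨i, h | h⟩
    · refine ⟨e (0, i), Finset.mem_univ_val _, ?_⟩
      rw [Function.comp_apply, Equiv.symm_apply_apply, eig, if_pos rfl, h0, h]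
    · refine ⟨e (1, i), Finset.mem_univ_val _, ?_⟩
      rw [Function.comp_apply, Equiv.symm_apply_apply, eig, if_neg (by simp), h0, h]

lemma gen_pow_q {q : ℕ} (hq : q ≠ 0) (s : ι → ℕ) : gen e q s ^ q = 1 := by
  rw [gen_pow, ← rot_zero e]
  apply Subtype.ext
  rw [rot_coe, rot_coe]
  congr 1
  rw [blk, blk]
  congr 1
  funext i
  have h1 : (q : ℝ) * (2 * Real.pi * s i / q) = (s i : ℝ) * (2 * Real.pi) := by
    have : (q : ℝ) ≠ 0 := by exact_mod_cast hq
    field_simp
  have h2 : Real.cos ((s i : ℝ) * (2 * Real.pi)) = 1 := Real.cos_nat_mul_two_pi (s i)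
  have h3 : Real.sin ((s i : ℝ) * (2 * Real.pi)) = 0 := by
    have h4 := Real.sin_nat_mul_pi (s i * 2)
    rw [← h4]
    congr 1
    push_cast
    ring
  rw [h1, h2, h3]
  simp

lemma dvd_of_root {q l k : ℕ} (hq : q ≠ 0) (hk : Nat.Coprime q k) (h : root q ^ (l * k) = 1) :
    q ∣ l :=
  hk.dvd_of_dvd_mul_right ((root_prim hq).dvd_of_pow_eq_one _ h)

lemma orderOf_gen {q : ℕ} (hq : q ≠ 0) {s : ι → ℕ} (i : ι) (hs : Nat.Coprime q (s i)) :
    orderOf (gen e q s) = q := by
  apply Nat.dvd_antisymm (orderOf_dvd_of_pow_eq_one (gen_pow_q e hq s))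
  have h1 := pow_orderOf_eq_one (gen e q s)
  rw [gen_pow] at h1
  have h2 := rot_eq_one e h1 i
  rw [exp_ang] at h2
  exact dvd_of_root hq hs h2

open Pool.Agent.Helper78.Geom

/-- the lens group -/
noncomputable def grp {d : ℕ} (e : Fin 2 × ι ≃ Fin (d + 1)) (q : ℕ) (s : ι → ℕ) : Subgroup (O d) :=
  Subgroup.zpowers (gen e q s)

section grp

variable {d : ℕ} (e : Fin 2 × ι ≃ Fin (d + 1))

lemma fin_order {q : ℕ} (hq : q ≠ 0) (s : ι → ℕ) : IsOfFinOrder (gen e q s) :=
  isOfFinOrder_iff_pow_eq_one.mpr ⟨q, Nat.pos_of_ne_zero hq, gen_pow_q e hq s⟩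

lemma mem_grp {q : ℕ} (hq : q ≠ 0) {s : ι → ℕ} {g : O d} (h : g ∈ grp e q s) :
    ∃ l : ℕ, g = gen e q s ^ l := by
  rw [grp, ← (fin_order e hq s).mem_powers_iff_mem_zpowers] at h
  obtain ⟨l, hl⟩ := h
  exact ⟨l, hl.symm⟩

lemma card_grp {q : ℕ} (hq : q ≠ 0) {s : ι → ℕ} (i : ι) (hs : Nat.Coprime q (s i)) :
    Nat.card (grp e q s) = q := by
  rw [grp, Nat.card_zpowers, orderOf_gen e hq i hs]

lemma finite_grp {q : ℕ} (hq : q ≠ 0) (s : ι → ℕ) : Finite (grp e q s) := by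
  have h := fin_order e hq s
  have h2 : (Subgroup.zpowers (gen e q s) : Set (O d)).Finite := finite_zpowers.mpr h
  exact h2.to_subtype

lemma isSpaceFormGroup_grp {q : ℕ} (hq : q ≠ 0) {s : ι → ℕ} (hs : ∀ i, Nat.Coprime q (s i)) :
    IsSpaceFormGroup (grp e q s) := by
  refine ⟨finite_grp e hq s, fun g hg hg1 x hx => hg1 ?_⟩
  obtain ⟨l, rfl⟩ := mem_grp e hq hg
  rw [gen_pow] at hx
  have hv : (WithLp.ofLp (x : E d)) ≠ 0 := by
    intro h0
    have h1 : ‖(x : E d)‖ = 1 := mem_sphere_zero_iff_norm.mp x.2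
    have h2 : (x : E d) = 0 := by
      have := congrArg (WithLp.toLp 2) h0
      simpa using this
    rw [h2, norm_zero] at h1
    exact zero_ne_one h1
  have hx2 := congrArg WithLp.ofLp hx
  rw [app] at hx2
  obtain ⟨i, hi⟩ := fixed e hv hx2
  rw [exp_ang] at hi
  obtain ⟨c, rfl⟩ := dvd_of_root hq (hs i) hi
  rw [pow_mul, gen_pow_q e hq, one_pow]

/-- the sum of the generating series over a lens group -/
lemma sum_grp {q : ℕ} (hq : q ≠ 0) {s : ι → ℕ} (i : ι) (hs : Nat.Coprime q (s i))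
    [Fintype (grp e q s)] :
    ∑ g : grp e q s, ser (g : O d) = ∑ l ∈ range q, ser (gen e q s ^ l) := by
  have h := fin_order e hq s
  have h1 : ∑ l ∈ range q, ser (gen e q s ^ l)
      = ∑ l : Fin (orderOf (gen e q s)), ser (gen e q s ^ (l : ℕ)) := by
    rw [Finset.sum_range, orderOf_gen e hq i hs]
  rw [h1]
  symm
  let E : Fin (orderOf (gen e q s)) ≃ grp e q s := finEquivZPowers h
  exact Fintype.sum_equiv E _ _ fun l => rfl

end grp

end Pool.Agent.Helper82.LS.Rot
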