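import Mathlib
import Pool.Agent.Helper78.Geom
import Pool.Agent.Helper78.Sph.Alg
import Pool.Agent.Helper78.Molien

/-!
Eigenfunctions of the Laplace-Beltrami operator of spherical space forms (after helper78).
-/

namespace Pool.Agent.Helper82.LS.Space

open Laplacian Filter Topology
open scoped ContDiff
open Pool.Agent.Helper78.Geom Pool.Agent.Helper78.Sph Pool.Agent.Helper78.Harm
  Pool.Agent.Helper78.Act Pool.Agent.Helper78.Eigen

/-- The point `x / ‖x‖` of the sphere. -/
noncomputable def dir {d : ℕ} (x : E d) (hx : x ≠ 0) : S d :=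
  ⟨‖x‖⁻¹ • x, mem_sphere_zero_iff_norm.mpr (norm_unit hx)⟩

open Classical in
/-- The function `x ↦ f([x / ‖x‖])` on `ℝ^(d+1) ∖ {0}` given by a function `f` on `S^d / Γ`
(with value `0` at the origin). -/
noncomputable def lift {d : ℕ} {Γ : Subgroup (O d)} (f : SpaceForm Γ → ℂ) (x : E d) : ℂ :=
  if hx : x = 0 then 0 else f (orb Γ (dir x hx))

/-- `f` is a smooth complex-valued function on `S^d / Γ` with `Δ f = -lam f`, where `Δ` is the
Laplace-Beltrami operator.  Here `f` is smooth if `x ↦ f([x / ‖x‖])` is smooth on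
`ℝ^(d+1) ∖ {0}`, and `Δ f` at `[x]` is the Euclidean Laplacian of this function at the point `x`
of the unit sphere. -/
def IsEigenfunction {d : ℕ} {Γ : Subgroup (O d)} (lam : ℝ) (f : SpaceForm Γ → ℂ) : Prop :=
  ContDiffOn ℝ ∞ (lift f) {0}ᶜ ∧
    ∀ x : S d, Laplacian.laplacian (lift f) (x : E d) = -(lam : ℂ) * f (orb Γ x)

lemma lift_ne {d : ℕ} {Γ : Subgroup (O d)} (f : SpaceForm Γ → ℂ) {x : E d} (hx : x ≠ 0) :
    lift f x = f (orb Γ (dir x hx)) := by
  rw [lift, dif_neg hx]

lemma lift_zero {d : ℕ} {Γ : Subgroup (O d)} (f : SpaceForm Γ → ℂ) :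
    lift f (0 : E d) = 0 := by
  rw [lift, dif_pos rfl]

lemma S_ne {d : ℕ} (x : S d) : (x : E d) ≠ 0 := by
  intro h
  have h1 : ‖(x : E d)‖ = 1 := mem_sphere_zero_iff_norm.mp x.2
  rw [h, norm_zero] at h1
  exact zero_ne_one h1

lemma dir_S {d : ℕ} (x : S d) : dir (x : E d) (S_ne x) = x := by
  apply Subtype.ext
  have h1 : ‖(x : E d)‖ = 1 := mem_sphere_zero_iff_norm.mp x.2
  simp [dir, h1]

lemma lift_S {d : ℕ} {Γ : Subgroup (O d)} (f : SpaceForm Γ → ℂ) (x : S d) :
    lift f (x : E d) = f (orb Γ x) := by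
  rw [lift_ne f (S_ne x), dir_S]

lemma lift_hom {d : ℕ} {Γ : Subgroup (O d)} (f : SpaceForm Γ → ℂ) {t : ℝ} (ht : 0 < t)
    (x : E d) : lift f (t • x) = lift f x := by
  by_cases hx : x = 0
  · rw [hx, smul_zero]
  · have hx' : t • x ≠ 0 := smul_ne_zero ht.ne' hx
    rw [lift_ne f hx, lift_ne f hx']
    congr 2
    apply Subtype.ext
    change ‖t • x‖⁻¹ • (t • x) = ‖x‖⁻¹ • x
    rw [norm_smul, Real.norm_of_nonneg ht.le, smul_smul]
    congr 1
    rw [mul_inv, mul_comm t⁻¹, mul_assoc, inv_mul_cancel₀ ht.ne', mul_one]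

lemma isEigenfunction_iff {d : ℕ} {Γ : Subgroup (O d)} (lam : ℝ) (f : SpaceForm Γ → ℂ) :
    IsEigenfunction lam f ↔ Eig lam (lift f) := by
  constructor
  · rintro ⟨h1, h2⟩
    refine ⟨fun t ht x => lift_hom f ht x, h1, fun x hx => ?_⟩
    have h3 := h2 ⟨x, mem_sphere_zero_iff_norm.mpr hx⟩
    rw [← lift_S f] at h3
    exact h3
  · rintro h
    refine ⟨h.smooth, fun x => ?_⟩
    rw [← lift_S f]
    exact h.eig x (mem_sphere_zero_iff_norm.mp x.2)

lemma lift_add {d : ℕ} {Γ : Subgroup (O d)} (f g : SpaceForm Γ → ℂ) :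
    lift (f + g) = fun x => lift f x + lift g x := by
  funext x
  by_cases hx : x = 0
  · rw [hx, lift_zero, lift_zero, lift_zero, add_zero]
  · rw [lift_ne _ hx, lift_ne _ hx, lift_ne _ hx]; rfl

lemma lift_smul {d : ℕ} {Γ : Subgroup (O d)} (c : ℂ) (f : SpaceForm Γ → ℂ) :
    lift (c • f) = fun x => c * lift f x := by
  funext x
  by_cases hx : x = 0
  · rw [hx, lift_zero, lift_zero, mul_zero]
  · rw [lift_ne _ hx, lift_ne _ hx]; rfl

/-- The eigenspace of the Laplace-Beltrami operator of `S^d / Γ` for the eigenvalue `lam`. -/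
def eigenspace {d : ℕ} (Γ : Subgroup (O d)) (lam : ℝ) : Submodule ℂ (SpaceForm Γ → ℂ) where
  carrier := {f | IsEigenfunction lam f}
  add_mem' := by
    intro f g hf hg
    change IsEigenfunction lam (f + g)
    rw [isEigenfunction_iff, lift_add]
    exact ((isEigenfunction_iff lam f).mp hf).add ((isEigenfunction_iff lam g).mp hg)
  zero_mem' := by
    change IsEigenfunction lam 0
    have h : lift (0 : SpaceForm Γ → ℂ) = fun _ => 0 := by
      funext x
      by_cases hx : x = 0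
      · rw [hx, lift_zero]
      · rw [lift_ne _ hx]; rfl
    rw [isEigenfunction_iff, h]
    exact Eig.zero lam
  smul_mem' := by
    intro c f hf
    change IsEigenfunction lam (c • f)
    rw [isEigenfunction_iff, lift_smul]
    exact ((isEigenfunction_iff lam f).mp hf).smul c

/-- The multiplicity of `lam` as an eigenvalue of the Laplace-Beltrami operator of `S^d / Γ`. -/
noncomputable def mult {d : ℕ} (Γ : Subgroup (O d)) (lam : ℝ) : ℕ :=
  Module.finrank ℂ (eigenspace Γ lam)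

/-- `S^d / Γ` and `S^d / Γ'` are isospectral. -/
def Isospectral {d : ℕ} (Γ Γ' : Subgroup (O d)) : Prop := ∀ lam : ℝ, mult Γ lam = mult Γ' lam

lemma mem_eigenspace {d : ℕ} {Γ : Subgroup (O d)} {lam : ℝ} {f : SpaceForm Γ → ℂ} :
    f ∈ eigenspace Γ lam ↔ Eig lam (lift f) := isEigenfunction_iff lam f

/-- the function on `S^d / Γ` given by an invariant polynomial -/
noncomputable def pfun {d k : ℕ} {Γ : Subgroup (O d)} (P : harmInv Γ k) : SpaceForm Γ → ℂ :=
  Quot.lift (fun x : S d => pev P.1 (x : E d)) (by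
    rintro x y ⟨g, hg, hgy⟩
    have h1 := P.2.1.2 g hg
    change pev P.1 (x : E d) = pev P.1 (y : E d)
    rw [← hgy, ← pev_act, h1])

lemma pfun_orb {d k : ℕ} {Γ : Subgroup (O d)} (P : harmInv Γ k) (x : S d) :
    pfun P (orb Γ x) = pev P.1 (x : E d) := rfl

lemma lift_pfun {d k : ℕ} {Γ : Subgroup (O d)} (P : harmInv Γ k) {x : E d} (hx : x ≠ 0) :
    lift (pfun P) x = pun P.1 x := by
  rw [lift_ne _ hx, pfun_orb]; rfl

lemma pfun_mem {d k : ℕ} {Γ : Subgroup (O d)} (P : harmInv Γ k) :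
    pfun P ∈ eigenspace Γ (lam (d + 1) k) := by
  rw [mem_eigenspace]
  exact (eig_pun P.2.1.1 (LinearMap.mem_ker.mp P.2.2)).congr (fun x hx => lift_pfun P hx)
    fun t ht x => lift_hom _ ht x

/-- the linear map from invariant harmonic polynomials to eigenfunctions -/
noncomputable def toEig {d : ℕ} (Γ : Subgroup (O d)) (k : ℕ) :
    harmInv Γ k →ₗ[ℂ] eigenspace Γ (lam (d + 1) k) where
  toFun P := ⟨pfun P, pfun_mem P⟩
  map_add' P Q := by
    apply Subtype.ext
    funext p
    induction p using Quot.ind with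
    | _ x =>
      change pev (P.1 + Q.1) (x : E d) = pev P.1 (x : E d) + pev Q.1 (x : E d)
      rw [pev_add]
  map_smul' c P := by
    apply Subtype.ext
    funext p
    induction p using Quot.ind with
    | _ x =>
      change pev (c • P.1) (x : E d) = c * pev P.1 (x : E d)
      rw [pev_smul]

lemma toEig_bijective {d : ℕ} (hd : 1 ≤ d) (Γ : Subgroup (O d)) (k : ℕ) :
    Function.Bijective (toEig Γ k) := by
  constructor
  · rw [injective_iff_map_eq_zero]
    intro P hP
    apply Subtype.ext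
    refine pev_of_unit (Nat.succ_pos d) P.2.1.1 fun x hx => ?_
    have h1 := congrArg (fun f : eigenspace Γ (lam (d + 1) k) =>
      f.1 (orb Γ ⟨x, mem_sphere_zero_iff_norm.mpr hx⟩)) hP
    exact h1
  · rintro ⟨f, hf⟩
    obtain ⟨P, hP1, hP2, hP3⟩ := exists_harm (by omega) (mem_eigenspace.mp hf)
    have hval : ∀ x : S d, f (orb Γ x) = pev P (x : E d) := by
      intro x
      rw [← lift_S f, hP3 _ (S_ne x), pun]
      have h1 : ‖(x : E d)‖ = 1 := mem_sphere_zero_iff_norm.mp x.2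
      rw [h1, inv_one, one_smul]
    have hinv : ∀ g ∈ Γ, act (toC (d + 1) g) P = P := by
      intro g hg
      refine pev_sub_unit (Nat.succ_pos d) (act_homog _ hP1) hP1 fun x hx => ?_
      rw [pev_act]
      have h1 := hval ⟨x, mem_sphere_zero_iff_norm.mpr hx⟩
      have h2 := hval (appS g ⟨x, mem_sphere_zero_iff_norm.mpr hx⟩)
      have h3 : orb Γ ⟨x, mem_sphere_zero_iff_norm.mpr hx⟩
          = orb Γ (appS g ⟨x, mem_sphere_zero_iff_norm.mpr hx⟩) := orb_eq_of ⟨g, hg, rfl⟩
      rw [← h3, h1] at h2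
      exact h2.symm
    refine ⟨⟨P, ⟨hP1, hinv⟩, LinearMap.mem_ker.mpr hP2⟩, ?_⟩
    apply Subtype.ext
    funext p
    induction p using Quot.ind with
    | _ x => exact (hval x).symm

/-- the multiplicity of the `k`-th eigenvalue -/
lemma mult_lam {d : ℕ} (hd : 1 ≤ d) (Γ : Subgroup (O d)) (k : ℕ) :
    mult Γ (lam (d + 1) k) = Module.finrank ℂ (harmInv Γ k) :=
  (LinearEquiv.ofBijective (toEig Γ k) (toEig_bijective hd Γ k)).finrank_eq.symm

/-- eigenvalues are of the form `k (k + d - 1)` -/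
lemma mult_zero {d : ℕ} (Γ : Subgroup (O d)) {l : ℝ}
    (hl : ∀ k, l ≠ lam (d + 1) k) : mult Γ l = 0 := by
  have h0 : eigenspace Γ l = ⊥ := by
    rw [eq_bot_iff]
    intro f hf
    rw [mem_eigenspace] at hf
    rw [Submodule.mem_bot]
    have h1 : ∀ Q : MvPolynomial (Fin (d + 1)) ℂ, pair (lift f) hf.smooth Q = 0 := by
      apply pair_zero (Nat.succ_pos d)
      intro j Q hQ1 hQ2
      rw [pair_apply]
      exact orth MeasureTheory.volume hf (eig_pun hQ1 hQ2) (hl j)
    funext p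
    induction p using Quot.ind with
    | _ x =>
      change f (orb Γ x) = 0
      rw [← lift_S f]
      exact zero_of_pair hf.smooth hf.hom h1 (S_ne x)
  rw [mult, h0, finrank_bot]

/-- equal dimensions of the spaces of invariant harmonic polynomials give isospectrality -/
lemma isospectral_of_harm {d : ℕ} (hd : 1 ≤ d) {Γ Γ' : Subgroup (O d)}
    (h : ∀ k, Module.finrank ℂ (harmInv Γ k) = Module.finrank ℂ (harmInv Γ' k)) :
    Isospectral Γ Γ' := by
  intro l
  by_cases hl : ∃ k, l = lam (d + 1) k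
  · obtain ⟨k, rfl⟩ := hl
    rw [mult_lam hd, mult_lam hd, h k]
  · push Not at hl
    rw [mult_zero Γ hl, mult_zero Γ' hl]

open Pool.Agent.Helper78.Molien in
/-- equal generating series give isospectrality -/
lemma isospectral_of_ser {d : ℕ} (hd : 1 ≤ d) {Γ Γ' : Subgroup (O d)} [Fintype Γ] [Fintype Γ']
    (hc : Nat.card Γ = Nat.card Γ') (h : ∑ g : Γ, ser (g : O d) = ∑ g : Γ', ser (g : O d)) :
    Isospectral Γ Γ' := by
  have hc0 : (Nat.card Γ' : ℂ) ≠ 0 := by exact_mod_cast Nat.card_pos.ne'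
  have hinv : ∀ k, Module.finrank ℂ (Pool.Agent.Helper78.Harm.inv Γ k) = Module.finrank ℂ (Pool.Agent.Helper78.Harm.inv Γ' k) := by
    intro k
    have h1 := congrArg (PowerSeries.coeff k) h
    rw [map_sum, map_sum] at h1
    simp only [ser, PowerSeries.coeff_mk] at h1
    rw [molien, molien, hc] at h1
    exact_mod_cast mul_left_cancel₀ hc0 h1
  apply isospectral_of_harm hd
  intro k
  by_cases hk : k < 2
  · rw [harmInv_low Γ k hk, harmInv_low Γ' k hk, hinv k]
  · obtain ⟨l, rfl⟩ : ∃ l, k = l + 2 := ⟨k - 2, by omega⟩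
    have h1 := finrank_inv (Nat.succ_pos d) Γ l
    have h2 := finrank_inv (Nat.succ_pos d) Γ' l
    have h3 := (h1.symm.trans (hinv (l + 2))).trans h2
    rw [hinv l] at h3
    exact Nat.add_left_cancel h3

end Pool.Agent.Helper82.LS.Space
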