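import Mathlib
import Pool.Agent.Helper82.LS.Space
import Pool.Agent.Helper82.LS.Fam
import Pool.Agent.Helper82.LS.Rot
import Pool.Agent.Helper82.LS.Lift2

/-!
Large isospectral families of lens spaces.
-/

namespace Pool.Agent.Helper82.LS.Main

open Finset
open Pool.Agent.Helper78.Geom Pool.Agent.Helper78.Eigen Pool.Agent.Helper78.Molien
  Pool.Agent.Helper78.Assembly
open Pool.Agent.Helper82.LS.Space Pool.Agent.Helper82.LS.Fam Pool.Agent.Helper82.LS.Rot
  Pool.Agent.Helper82.LS.Lift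

/-! ### the generating series -/

section series

variable {ι : Type*} [Fintype ι] [DecidableEq ι] {N : ℕ} (e : Fin 2 × ι ≃ Fin N)

lemma pol_gen (q : ℕ) (s : ι → ℕ) (l : ℕ) :
    ((pol (gen e q s ^ l) : Polynomial ℂ) : PowerSeries ℂ) = ∏ i, Pf (root q) (l * s i) := by
  rw [pol, ev_gen_pow, ← Polynomial.coeToPowerSeries.ringHom_apply, map_prod]
  refine prod_congr rfl fun i _ => ?_
  rw [map_mul, Pf]
  simp [Polynomial.coeToPowerSeries.ringHom_apply]

end series

lemma root_modEq {q a b : ℕ} (hq : q ≠ 0) (h : root q ^ a = root q ^ b) : a ≡ b [MOD q] := by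
  have h0 : root q ≠ 0 := (root_prim hq).ne_zero hq
  have h1 : root q ^ ((b : ℤ) - a) = 1 := by
    rw [zpow_sub₀ h0, zpow_natCast, zpow_natCast, h, div_self (pow_ne_zero _ h0)]
  exact Nat.modEq_iff_dvd.mpr (((root_prim hq).zpow_eq_one_iff_dvd _).mp h1)

lemma root_dvd_add {q a b : ℕ} (hq : q ≠ 0) (h : root q ^ a = (root q ^ b)⁻¹) : q ∣ a + b := by
  have h0 : root q ≠ 0 := (root_prim hq).ne_zero hq
  apply (root_prim hq).dvd_of_pow_eq_one
  rw [pow_add, h, inv_mul_cancel₀ (pow_ne_zero _ h0)]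

/-- the frequencies of the blocks -/
def frq (z i : ℕ) : ℕ := (z + 2) * 2 ^ i

lemma sum_frq (z i : ℕ) : z + ∑ j ∈ range i, frq z j + 2 = frq z i := by
  induction i with
  | zero => simp [frq]
  | succ i ih =>
    rw [sum_range_succ]
    have : frq z (i + 1) = 2 * frq z i := by rw [frq, frq, pow_succ]; ring
    omega

lemma frq_le {z i k : ℕ} (h : i ≤ k) : frq z i ≤ frq z k :=
  Nat.mul_le_mul_left _ (Nat.pow_le_pow_right two_pos h)

lemma frq_succ (z i : ℕ) : frq z (i + 1) = 2 * frq z i := by rw [frq, frq, pow_succ]; ring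

lemma frq_inj {z i k : ℕ} (h : frq z i = frq z k) : i = k := by
  have h1 : 2 ^ i = 2 ^ k := Nat.eq_of_mul_eq_mul_left (by omega) h
  exact Nat.pow_right_injective le_rfl h1

lemma one_lt_frq (z i : ℕ) : 1 < frq z i := by
  have : 1 ≤ 2 ^ i := Nat.one_le_two_pow
  have : (z + 2) * 1 ≤ frq z i := Nat.mul_le_mul_left _ this
  omega

/-- parameters -/
structure Par (r z κ : ℕ) : Prop where
  prime : (r + 1).Prime
  big : frq z κ < r + 1

section par

variable {r z κ : ℕ} (hP : Par r z κ)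
include hP

lemma Par.lt {i : ℕ} (hi : i < κ) : 2 * frq z i < r + 1 := by
  have := frq_le (z := z) (show i + 1 ≤ κ from hi)
  rw [frq_succ] at this
  exact this.trans_lt hP.big

lemma Par.hz : z ≤ r := by
  have h1 := hP.big
  have h2 : z + 2 ≤ frq z κ := by
    have : 1 ≤ 2 ^ κ := Nat.one_le_two_pow
    calc z + 2 = (z + 2) * 1 := by ring
      _ ≤ frq z κ := Nat.mul_le_mul_left _ this
  omega

lemma Par.coprime (w c j : ℕ) (hc : 0 < c) (hcr : c < r + 1) :
    Nat.Coprime ((r + 1) * (r + 1) ^ (w + 1)) (c + (r + 1) ^ (w + 1) * j) := by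
  have h1 : Nat.Coprime (r + 1) (c + (r + 1) ^ (w + 1) * j) := by
    rw [Nat.Prime.coprime_iff_not_dvd hP.prime]
    intro hd
    have h2 : (r + 1) ∣ (r + 1) ^ (w + 1) * j := (dvd_pow_self _ (Nat.succ_ne_zero w)).mul_right j
    have h3 : (r + 1) ∣ c := (Nat.dvd_add_left h2).mp hd
    have := Nat.le_of_dvd hc h3
    omega
  exact Nat.Coprime.mul_left h1 (Nat.Coprime.pow_left _ h1)

lemma Par.coprime_ex {m : ℕ} (w : ℕ) (t : Fin κ → Fin (r + 1)) (x : Ix r z κ m) :
    Nat.Coprime ((r + 1) * (r + 1) ^ (w + 1)) (ex ((r + 1) ^ (w + 1)) (frq z) t x) := by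
  have h1 : 1 < r + 1 := hP.prime.one_lt
  rcases x with x | x | x
  · exact hP.coprime w 1 _ one_pos h1
  · exact hP.coprime w 1 _ one_pos h1
  · refine hP.coprime w _ _ (by have := one_lt_frq z x.1; omega) ?_
    have := hP.lt x.1.2
    omega

end par

/-- the order of the groups -/
def ord (r w : ℕ) : ℕ := (r + 1) * (r + 1) ^ (w + 1)

lemma ord_ne (r w : ℕ) : ord r w ≠ 0 := by unfold ord; positivity

section fam

variable {r z κ m d w : ℕ} (e : Fin 2 × Ix r z κ m ≃ Fin (d + 1)) (t : Fin κ → Fin (r + 1))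

/-- the exponents of the lens space with parameter `t` -/
def exs (z m w : ℕ) (t : Fin κ → Fin (r + 1)) : Ix r z κ m → ℕ :=
  ex ((r + 1) ^ (w + 1)) (frq z) t

/-- the group of the lens space with parameter `t` -/
noncomputable def Gam (w : ℕ) : Subgroup (O d) := grp e (ord r w) (exs z m w t)

variable (hP : Par r z κ)
include hP

/-- the index of the exponent one -/
lemma exists_one : ∃ x : Ix r z κ m, exs z m w t x = 1 := by
  have := hP.hz
  refine ⟨Sum.inr (Sum.inl ⟨0, by omega⟩), ?_⟩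
  simp [exs, ex]

lemma card_Gam : Nat.card (Gam e t w) = ord r w := by
  obtain ⟨x, hx⟩ := exists_one (m := m) (w := w) t hP
  exact card_grp e (ord_ne r w) x (by rw [hx]; exact Nat.coprime_one_right _)

lemma isSpaceFormGroup_Gam : IsSpaceFormGroup (Gam e t w) :=
  isSpaceFormGroup_grp e (ord_ne r w) fun x => hP.coprime_ex w t x

lemma sum_Gam [inst : Fintype (Gam e t w)] :
    ∑ g : Gam e t w, ser (g : O d)
      = ∑ l ∈ range (ord r w), ser (gen e (ord r w) (exs z m w t) ^ l) := by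
  obtain ⟨x, hx⟩ := exists_one (m := m) (w := w) t hP
  exact @sum_grp _ _ _ d e (ord r w) (ord_ne r w) (exs z m w t) x
    (by rw [hx]; exact Nat.coprime_one_right _) inst

theorem isospectral_Gam (hd : 1 ≤ d) (t' : Fin κ → Fin (r + 1)) :
    Isospectral (Gam e t w) (Gam e t' w) := by
  have : Finite (Gam e t w) := finite_grp e (ord_ne r w) _
  have : Finite (Gam e t' w) := finite_grp e (ord_ne r w) _
  have : Fintype (Gam e t w) := Fintype.ofFinite _
  have : Fintype (Gam e t' w) := Fintype.ofFinite _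
  apply isospectral_of_ser hd
  · rw [card_Gam e t hP, card_Gam e t' hP]
  · have hs : ∀ (t : Fin κ → Fin (r + 1)) (l : ℕ),
        (∏ x : Ix r z κ m, Pf (root (ord r w)) (l * ex ((r + 1) ^ (w + 1)) (frq z) t x)) *
          ser (gen e (ord r w) (exs z m w t) ^ l) = 1 := by
      intro t l
      have h3 := pol_gen e (ord r w) (exs z m w t) l
      rw [exs] at h3 ⊢
      rw [← h3]
      exact pol_mul_ser (fin_order e (ord_ne r w) _).pow
    have h3 := sum_ser (m := m) hP.prime (root_prim (ord_ne r w))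
      (dvd_pow_self (r + 1) (Nat.succ_ne_zero w)) (pow_pos (Nat.succ_pos r) _)
      (a := frq z) (z := z) (κ := κ) (by have := hP.hz; omega)
      (fun i _ => by have := sum_frq z i; omega)
      (by have := sum_frq z κ; have := hP.big; omega) t t' _ _ (hs t) (hs t')
    rw [sum_Gam e t hP, sum_Gam e t' hP]
    exact h3

/-! ### non-isometric members -/

omit hP in
lemma mem_ev {x : ℂ} : x ∈ ev (gen e (ord r w) (exs z m w t)) ↔
    ∃ i, x = root (ord r w) ^ exs z m w t i ∨ x = (root (ord r w) ^ exs z m w t i)⁻¹ :=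
  mem_ev_gen e

/-- the removed exponents are not eigenvalues -/
lemma not_mem_ev (i : Fin κ) :
    root (ord r w) ^ (frq z i + (r + 1) ^ (w + 1) * t i) ∉ ev (gen e (ord r w) (exs z m w t)) := by
  rw [mem_ev]
  rintro ⟨x, hx⟩
  have h2i := hP.lt i.2
  have h1i := one_lt_frq z i
  have hdQ : (r + 1) ∣ (r + 1) ^ (w + 1) := dvd_pow_self _ (Nat.succ_ne_zero w)
  have hmod : ∀ b y, b + (r + 1) ^ (w + 1) * y ≡ b [MOD (r + 1)] := by
    intro b y
    have : (r + 1) ^ (w + 1) * y ≡ 0 [MOD (r + 1)] :=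
      (Nat.modEq_zero_iff_dvd).mpr (hdQ.mul_right y)
    simpa using Nat.ModEq.add_left b this
  have hpq : (r + 1) ∣ ord r w := ⟨_, rfl⟩
  -- the two cases for an exponent `b + Q y`
  have key1 : ∀ b y, root (ord r w) ^ (frq z i + (r + 1) ^ (w + 1) * t i)
      = root (ord r w) ^ (b + (r + 1) ^ (w + 1) * y) → b < r + 1 → frq z i = b := by
    intro b y h hb
    have h3 := (root_modEq (ord_ne r w) h).of_dvd hpq
    have h4 := ((hmod _ _).symm.trans h3).trans (hmod _ _)
    exact Nat.ModEq.eq_of_lt_of_lt h4 (by omega) hb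
  have key2 : ∀ b y, root (ord r w) ^ (frq z i + (r + 1) ^ (w + 1) * t i)
      = (root (ord r w) ^ (b + (r + 1) ^ (w + 1) * y))⁻¹ → 2 * b ≤ r + 1 → False := by
    intro b y h hb
    have h3 := (root_dvd_add (ord_ne r w) h)
    have h4 : (r + 1) ∣ frq z i + b := by
      have h5 := hpq.trans h3
      have h6 : frq z i + (r + 1) ^ (w + 1) * t i + (b + (r + 1) ^ (w + 1) * y)
          = (frq z i + b) + (r + 1) ^ (w + 1) * (t i + y) := by ring
      rw [h6] at h5
      exact (Nat.dvd_add_left (hdQ.mul_right _)).mp h5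
    have h5 := Nat.le_of_dvd (by omega) h4
    omega
  have h3r : 3 ≤ r + 1 := by omega
  rcases x with x | x | ⟨i', j⟩
  · rcases hx with hx | hx
    · have := key1 1 x.2 hx (by omega)
      omega
    · exact key2 1 x.2 hx (by omega)
  · rcases hx with hx | hx
    · have := key1 1 x hx (by omega)
      omega
    · exact key2 1 x hx (by omega)
  · have h2i' := hP.lt i'.2
    rcases hx with hx | hx
    · have h3 := key1 (frq z i') _ hx (by omega)
      have h4 : i = i' := Fin.ext (frq_inj h3)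
      subst h4
      have h5 := root_modEq (ord_ne r w) hx
      have h6 : (r + 1) ^ (w + 1) * (t i : ℕ)
          ≡ (r + 1) ^ (w + 1) * ((t i).succAbove j : ℕ) [MOD ord r w] :=
        Nat.ModEq.add_left_cancel' _ h5
      have h7 : (t i : ℕ) ≡ ((t i).succAbove j : ℕ) [MOD (r + 1)] := by
        rw [ord, mul_comm (r + 1)] at h6
        exact Nat.ModEq.mul_left_cancel' (pow_ne_zero _ (Nat.succ_ne_zero r)) h6
      have h8 := Nat.ModEq.eq_of_lt_of_lt h7 (t i).2 ((t i).succAbove j).2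
      exact Fin.succAbove_ne (t i) j (Fin.ext h8.symm)
    · exact key2 (frq z i') _ hx (by omega)

omit hP in
lemma mem_ev_of_ne (i : Fin κ) {y : Fin (r + 1)} (hy : y ≠ t i) :
    root (ord r w) ^ (frq z i + (r + 1) ^ (w + 1) * y) ∈ ev (gen e (ord r w) (exs z m w t)) := by
  rw [mem_ev]
  obtain ⟨j, hj⟩ := Fin.exists_succAbove_eq hy
  exact ⟨Sum.inr (Sum.inr (i, j)), Or.inl (by rw [exs, ex, hj])⟩

lemma ev_inj {t t' : Fin κ → Fin (r + 1)}
    (h : ev (gen e (ord r w) (exs z m w t)) = ev (gen e (ord r w) (exs z m w t'))) : t = t' := by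
  funext i
  by_contra hne
  have h1 := mem_ev_of_ne (w := w) e t i (y := t' i) (Ne.symm hne)
  rw [h] at h1
  exact not_mem_ev e t' hP i h1

omit hP in
lemma card_ev_le : (ev (gen e (ord r w) (exs z m w t))).toFinset.card ≤ 2 * ((κ + 1) * (r + 1)) := by
  classical
  obtain ⟨f, hf⟩ : ∃ f : Bool × Option (Fin κ) × Fin (r + 1) → ℂ, f = fun x =>
      if x.1 then root (ord r w) ^ ((x.2.1.elim 1 fun i => frq z i) + (r + 1) ^ (w + 1) * x.2.2)
      else (root (ord r w) ^ ((x.2.1.elim 1 fun i => frq z i) + (r + 1) ^ (w + 1) * x.2.2))⁻¹ :=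
    ⟨_, rfl⟩
  have h1 : (ev (gen e (ord r w) (exs z m w t))).toFinset ⊆ univ.image f := by
    intro x hx
    rw [Multiset.mem_toFinset, mem_ev] at hx
    obtain ⟨i, hi⟩ := hx
    rw [mem_image]
    have h2 : ∃ (o : Option (Fin κ)) (y : Fin (r + 1)),
        exs z m w t i = (o.elim 1 fun i => frq z i) + (r + 1) ^ (w + 1) * y := by
      rcases i with i | i | i
      · exact ⟨none, i.2, rfl⟩
      · exact ⟨none, ⟨i, lt_of_lt_of_le i.2 (Nat.sub_le _ _)⟩, rfl⟩
      · exact ⟨some i.1, (t i.1).succAbove i.2, rfl⟩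
    obtain ⟨o, y, hoy⟩ := h2
    rcases hi with hi | hi
    · exact ⟨(true, o, y), mem_univ _, by rw [hf, hi, hoy]; simp⟩
    · exact ⟨(false, o, y), mem_univ _, by rw [hf, hi, hoy]; simp⟩
  refine (card_le_card h1).trans (card_image_le.trans ?_)
  rw [card_univ, Fintype.card_prod, Fintype.card_prod, Fintype.card_bool, Fintype.card_option,
    Fintype.card_fin, Fintype.card_fin]

lemma root_mem_ev : root (ord r w) ∈ ev (gen e (ord r w) (exs z m w t)) := by
  rw [mem_ev]
  obtain ⟨x, hx⟩ := exists_one (m := m) (w := w) t hP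
  exact ⟨x, Or.inl (by rw [hx, pow_one])⟩

lemma prim_of_mem_ev {x : ℂ} (hx : x ∈ ev (gen e (ord r w) (exs z m w t))) :
    IsPrimitiveRoot x (ord r w) := by
  rw [mem_ev] at hx
  obtain ⟨i, hi⟩ := hx
  have h1 := (root_prim (ord_ne r w)).pow_of_coprime (exs z m w t i)
    (hP.coprime_ex w t i).symm
  rcases hi with rfl | rfl
  · exact h1
  · exact h1.inv

/-- conjugacy of members gives an eigenvalue and an exponent -/
lemma exists_of_conj {t t' : Fin κ → Fin (r + 1)} (h : Conj (Gam e t w) (Gam e t' w)) :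
    ∃ x ∈ ev (gen e (ord r w) (exs z m w t')), ∃ l : ℕ, x ^ l = root (ord r w) ∧
      ev (gen e (ord r w) (exs z m w t)) = ev (gen e (ord r w) (exs z m w t') ^ l) := by
  obtain ⟨Q, hQ⟩ := h
  have h1 : Q * gen e (ord r w) (exs z m w t) * Q⁻¹ ∈ Gam e t' w := by
    rw [hQ]
    have h2 : Q⁻¹ * (Q * gen e (ord r w) (exs z m w t) * Q⁻¹) * Q
        = gen e (ord r w) (exs z m w t) := by group
    rw [h2]
    exact Subgroup.mem_zpowers _
  obtain ⟨l, hl⟩ := mem_grp e (ord_ne r w) h1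
  have h3 : ev (gen e (ord r w) (exs z m w t)) = ev (gen e (ord r w) (exs z m w t') ^ l) := by
    rw [← hl, ev_conj]
  have h4 := root_mem_ev (w := w) e t hP
  rw [h3, ev_pow (fin_order e (ord_ne r w) _), Multiset.mem_map] at h4
  obtain ⟨x, hx, hxl⟩ := h4
  exact ⟨x, hx, l, hxl, h3⟩

open Classical in
/-- every conjugacy class has few members -/
lemma card_class (t' : Fin κ → Fin (r + 1)) :
    (univ.filter fun t : Fin κ → Fin (r + 1) => Conj (Gam (w := w) e t) (Gam e t' w)).card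
      ≤ 2 * ((κ + 1) * (r + 1)) := by
  have h1 : ∀ t : Fin κ → Fin (r + 1), ∃ x : ℂ, Conj (Gam e t w) (Gam e t' w) →
      x ∈ ev (gen e (ord r w) (exs z m w t')) ∧ ∃ l : ℕ, x ^ l = root (ord r w) ∧
      ev (gen e (ord r w) (exs z m w t)) = ev (gen e (ord r w) (exs z m w t') ^ l) := by
    intro t
    by_cases h : Conj (Gam e t w) (Gam e t' w)
    · obtain ⟨x, hx⟩ := exists_of_conj e hP h
      exact ⟨x, fun _ => hx⟩
    · exact ⟨0, fun h' => absurd h' h⟩
  choose f hf using h1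
  refine (card_le_card_of_injOn f (t := (ev (gen e (ord r w) (exs z m w t'))).toFinset) ?_ ?_).trans
    (card_ev_le e t')
  · intro t ht
    rw [Finset.mem_coe, Multiset.mem_toFinset]
    exact (hf t (mem_filter.mp ht).2).1
  · intro t₁ ht₁ t₂ ht₂ h
    obtain ⟨hx, l₁, hl₁, he₁⟩ := hf t₁ (mem_filter.mp (Finset.mem_coe.mp ht₁)).2
    obtain ⟨_, l₂, hl₂, he₂⟩ := hf t₂ (mem_filter.mp (Finset.mem_coe.mp ht₂)).2
    rw [← h] at hl₂
    have hp := prim_of_mem_ev e t' hP hx
    have hx0 : f t₁ ≠ 0 := hp.ne_zero (ord_ne r w)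
    have h2 : (f t₁) ^ ((l₂ : ℤ) - l₁) = 1 := by
      rw [zpow_sub₀ hx0, zpow_natCast, zpow_natCast, hl₁, hl₂, div_self]
      exact (root_prim (ord_ne r w)).ne_zero (ord_ne r w)
    have h3 : l₁ ≡ l₂ [MOD ord r w] :=
      Nat.modEq_iff_dvd.mpr ((hp.zpow_eq_one_iff_dvd _).mp h2)
    have h4 : gen e (ord r w) (exs z m w t') ^ l₁ = gen e (ord r w) (exs z m w t') ^ l₂ := by
      rw [pow_eq_pow_iff_modEq]
      obtain ⟨x, hx⟩ := exists_one (m := m) (w := w) t' hP
      rwa [orderOf_gen e (ord_ne r w) x (by rw [hx]; exact Nat.coprime_one_right _)]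
    apply ev_inj (w := w) e hP
    rw [he₁, he₂, h4]

end fam

/-! ### counting classes -/

lemma conj_refl {N : ℕ} (Γ : Subgroup (Og N)) : Conj Γ Γ := ⟨1, fun z => by simp⟩

lemma conj_symm {N : ℕ} {Γ Γ' : Subgroup (Og N)} (h : Conj Γ Γ') : Conj Γ' Γ := by
  obtain ⟨Q, hQ⟩ := h
  refine ⟨Q⁻¹, fun z => ?_⟩
  rw [hQ]
  have : Q⁻¹ * ((Q⁻¹)⁻¹ * z * Q⁻¹) * Q = z := by group
  rw [this]

lemma conj_trans {N : ℕ} {Γ Γ' Γ'' : Subgroup (Og N)} (h : Conj Γ Γ') (h' : Conj Γ' Γ'') :
    Conj Γ Γ'' := by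
  obtain ⟨Q, hQ⟩ := h
  obtain ⟨R, hR⟩ := h'
  refine ⟨R * Q, fun z => ?_⟩
  rw [hR, hQ]
  have : Q⁻¹ * (R⁻¹ * z * R) * Q = (R * Q)⁻¹ * z * (R * Q) := by group
  rw [this]

open Classical in
/-- representatives of the classes of an equivalence relation -/
lemma exists_reps {T : Type} [Fintype T] (R : T → T → Prop) (hR : Equivalence R) (c : ℕ)
    (hc : ∀ t', (univ.filter fun t => R t t').card ≤ c) :
    ∃ F : Finset T, Fintype.card T ≤ c * F.card ∧ ∀ a ∈ F, ∀ b ∈ F, R a b → a = b := by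
  let s : Setoid T := ⟨R, hR⟩
  obtain ⟨f, hf⟩ : ∃ f : T → T, f = fun t => (Quotient.mk s t).out := ⟨_, rfl⟩
  have hfR : ∀ t, R (f t) t := by
    intro t
    rw [hf]
    exact Quotient.mk_out t
  refine ⟨univ.image f, ?_, ?_⟩
  · rw [← card_univ]
    apply card_le_mul_card_image
    intro b _
    refine (card_le_card ?_).trans (hc b)
    intro a ha
    rw [mem_filter] at ha ⊢
    refine ⟨mem_univ _, ?_⟩
    rw [← ha.2]
    exact hR.symm (hfR a)
  · intro a ha b hb hab
    obtain ⟨a', _, rfl⟩ := mem_image.mp ha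
    obtain ⟨b', _, rfl⟩ := mem_image.mp hb
    have h1 : Quotient.mk s a' = Quotient.mk s b' :=
      Quotient.sound (hR.trans (hR.symm (hfR a')) (hR.trans hab (hfR b')))
    rw [hf]
    change (Quotient.mk s a').out = (Quotient.mk s b').out
    rw [h1]

/-- an isospectral set of spherical space forms with cyclic groups of order `o` -/
structure IsoSet (d o : ℕ) (F : Finset (Subgroup (O d))) : Prop where
  form : ∀ Γ ∈ F, IsSpaceFormGroup Γ ∧ IsCyclic Γ ∧ Nat.card Γ = o
  iso : ∀ Γ ∈ F, ∀ Γ' ∈ F, Γ ≠ Γ' → Isospectral Γ Γ' ∧ ¬ Isometric Γ Γ'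

open Classical in
/-- The family of lens spaces. -/
theorem family {r z κ : ℕ} (hP : Par r z κ) (m w : ℕ) {d : ℕ}
    (hd : d + 1 = 2 * (m * (r + 1) + ((r + 1 - z) + κ * r))) :
    ∃ F : Finset (Subgroup (O d)), IsoSet d (ord r w) F ∧
      (r + 1) ^ κ ≤ (2 * ((κ + 1) * (r + 1))) * F.card := by
  have hd1 : 1 ≤ d := by
    have := hP.hz
    omega
  have hcard : Fintype.card (Fin 2 × Ix r z κ m) = d + 1 := by
    rw [hd]
    simp
  obtain ⟨e⟩ : Nonempty (Fin 2 × Ix r z κ m ≃ Fin (d + 1)) :=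
    ⟨Fintype.equivFinOfCardEq hcard⟩
  obtain ⟨R, hR1, hR2⟩ := exists_reps (T := Fin κ → Fin (r + 1))
    (fun t t' => Conj (Gam e t w) (Gam e t' w))
    ⟨fun t => conj_refl _, fun h => conj_symm h, fun h h' => conj_trans h h'⟩
    (2 * ((κ + 1) * (r + 1))) (card_class e hP)
  refine ⟨R.image fun t => Gam e t w, ⟨?_, ?_⟩, ?_⟩
  · intro Γ hΓ
    obtain ⟨t, _, rfl⟩ := mem_image.mp hΓ
    refine ⟨isSpaceFormGroup_Gam e t hP, ?_, card_Gam e t hP⟩
    unfold Gam grp
    infer_instance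
  · intro Γ hΓ Γ' hΓ' hne
    obtain ⟨t, ht, rfl⟩ := mem_image.mp hΓ
    obtain ⟨t', ht', rfl⟩ := mem_image.mp hΓ'
    refine ⟨isospectral_Gam e t hP hd1 t', fun h => hne ?_⟩
    have h1 := conj_of_isometric hd1 (isSpaceFormGroup_Gam e t hP) (isSpaceFormGroup_Gam e t' hP) h
    rw [hR2 t ht t' ht' h1]
  · rw [card_image_of_injOn]
    · rw [Fintype.card_fun, Fintype.card_fin, Fintype.card_fin] at hR1
      exact hR1
    · intro t ht t' ht' h
      apply hR2 t ht t' ht'
      have h' : Gam e t w = Gam e t' w := h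
      change Conj (Gam e t w) (Gam e t' w)
      rw [h']
      exact conj_refl _

end Pool.Agent.Helper82.LS.Main
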