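import Mathlib
import Pool.Agent.Helper82.LS.Main

/-!
Large prime factors of consecutive integers, and the choice of parameters.
-/

namespace Pool.Agent.Helper82.LS.Num

open Finset Nat
open Pool.Agent.Helper82.LS.Main

/-- Among `W = s ^ 3` consecutive integers of size about `s ^ 4` one has a prime factor larger
than `C * W`. -/
lemma large_prime {s h C : ℕ} (hs : 6 ≤ s) (h1 : s ^ 4 ≤ h) (h2 : h < (s + 1) ^ 4)
    (hπ : 5 * Nat.primeCounting (C * s ^ 3) < s ^ 3) :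
    ∃ j p, 1 ≤ j ∧ j ≤ s ^ 3 ∧ p.Prime ∧ p ∣ h + j ∧ C * s ^ 3 < p := by
  by_contra hcon
  push Not at hcon
  obtain ⟨W, hW⟩ : ∃ W, W = s ^ 3 := ⟨_, rfl⟩
  rw [← hW] at hcon hπ
  have hW0 : 0 < W := by rw [hW]; positivity
  obtain ⟨B, hB⟩ : ∃ B, B = (h + W).choose W := ⟨_, rfl⟩
  have hB0 : B ≠ 0 := by
    rw [hB]
    exact (Nat.choose_pos (Nat.le_add_left _ _)).ne'
  have hasc := Nat.ascFactorial_eq_factorial_mul_choose h W
  rw [← hB] at hasc
  -- lower bound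
  have hlow : s ^ W ≤ B := by
    have h3 : (h + 1) ^ W ≤ (h + 1).ascFactorial W := Nat.pow_succ_le_ascFactorial _ _
    rw [hasc] at h3
    have h4 : (h + 1) ^ W ≤ W ^ W * B := h3.trans (Nat.mul_le_mul_right _ (Nat.factorial_le_pow W))
    have h5 : (W * s) ^ W ≤ (h + 1) ^ W := by
      apply Nat.pow_le_pow_left
      have h6 : W * s = s ^ 4 := by rw [hW]; ring
      omega
    rw [mul_pow] at h5
    exact Nat.le_of_mul_le_mul_left (h5.trans h4) (by positivity)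
  -- upper bound
  have hprimes : B.primeFactors ⊆ Nat.primesLE (C * W) := by
    intro p hp
    have hpp := Nat.prime_of_mem_primeFactors hp
    rw [Nat.mem_primesLE]
    refine ⟨?_, hpp⟩
    have h3 : p ∣ (h + 1).ascFactorial W := by
      rw [hasc]
      exact (Nat.dvd_of_mem_primeFactors hp).mul_left _
    rw [Nat.ascFactorial_eq_prod_range, hpp.prime.dvd_finsetProd_iff] at h3
    obtain ⟨i, hi, hd⟩ := h3
    rw [mem_range] at hi
    have h4 : h + 1 + i = h + (i + 1) := by ring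
    rw [h4] at hd
    exact hcon (i + 1) p (by omega) (by omega) hpp hd
  have hup : B ≤ (s ^ 5) ^ Nat.primeCounting (C * W) := by
    have hN : h + W ≤ s ^ 5 := by
      rw [hW]
      have h3 : (s + 1) ^ 4 + s ^ 3 ≤ s ^ 5 := by
        obtain ⟨x, rfl⟩ : ∃ x, s = x + 6 := ⟨s - 6, by omega⟩
        ring_nf
        nlinarith [sq_nonneg x, Nat.zero_le x]
      omega
    calc B = ∏ p ∈ B.primeFactors, p ^ B.factorization p :=
          Nat.prod_primeFactors_pow_factorization hB0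
      _ ≤ ∏ p ∈ B.primeFactors, s ^ 5 := by
          refine Finset.prod_le_prod' fun p _ => ?_
          rw [hB]
          exact (Nat.pow_factorization_choose_le (by omega)).trans hN
      _ = (s ^ 5) ^ B.primeFactors.card := by rw [Finset.prod_const]
      _ ≤ (s ^ 5) ^ Nat.primeCounting (C * W) := by
          apply Nat.pow_le_pow_right (by positivity)
          refine (Finset.card_le_card hprimes).trans ?_
          rw [Nat.primesLE_card_eq_primeCounting]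
  have h3 := hlow.trans hup
  rw [← pow_mul] at h3
  have h4 := (Nat.pow_le_pow_iff_right (show 1 < s by omega)).mp h3
  omega

/-- the choice of the parameters -/
lemma exists_par {n κ s : ℕ} (hs : 6 ≤ s)
    (h1 : s ^ 4 ≤ (n + κ) / (κ + 1)) (h2 : (n + κ) / (κ + 1) < (s + 1) ^ 4)
    (hπ : 5 * Nat.primeCounting ((κ + 3) * 2 ^ κ * s ^ 3) < s ^ 3) :
    ∃ r z m, Par r z κ ∧ n = m * (r + 1) + ((r + 1 - z) + κ * r) ∧ n ^ 3 ≤ (r + 1) ^ 4 := by
  obtain ⟨h, hh⟩ : ∃ h, h = (n + κ) / (κ + 1) := ⟨_, rfl⟩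
  rw [← hh] at h1 h2
  obtain ⟨j, p, hj1, hj2, hp, hpd, hpC⟩ := large_prime hs h1 h2 hπ
  obtain ⟨W, hW⟩ : ∃ W, W = s ^ 3 := ⟨_, rfl⟩
  rw [← hW] at hj2 hpC
  have hW0 : 0 < W := by rw [hW]; positivity
  have hp2 := hp.two_le
  obtain ⟨r, rfl⟩ : ∃ r, p = r + 1 := ⟨p - 1, by omega⟩
  have hle : (κ + 1) * h ≤ n + κ := by rw [hh]; exact Nat.mul_div_le _ _
  have hlt : n + κ < (κ + 1) * (h + 1) := by
    rw [hh]
    exact Nat.lt_mul_div_succ _ (Nat.succ_pos κ)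
  obtain ⟨c, hc⟩ := hpd
  have hc0 : 1 ≤ c := by
    rcases Nat.eq_zero_or_pos c with h0 | h0
    · rw [h0, mul_zero] at hc
      omega
    · exact h0
  have hle2 : (κ + 1) * (h + 1) ≤ (κ + 1) * (h + j) := Nat.mul_le_mul_left _ (by omega)
  obtain ⟨z, hz⟩ : ∃ z, z + (n + κ) = (κ + 1) * (h + j) := ⟨(κ + 1) * (h + j) - (n + κ), by omega⟩
  have hzW : z ≤ (κ + 1) * W := by
    have h3 : (κ + 1) * (h + j) = (κ + 1) * h + (κ + 1) * j := by ring
    have h4 : (κ + 1) * j ≤ (κ + 1) * W := Nat.mul_le_mul_left _ hj2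
    omega
  have hbig : (z + 2) * 2 ^ κ < r + 1 := by
    refine lt_of_le_of_lt ?_ hpC
    have h3 : z + 2 ≤ (κ + 3) * W := by
      have : (κ + 3) * W = (κ + 1) * W + 2 * W := by ring
      omega
    calc (z + 2) * 2 ^ κ ≤ ((κ + 3) * W) * 2 ^ κ := Nat.mul_le_mul_right _ h3
      _ = (κ + 3) * 2 ^ κ * W := by ring
  have hzr : z < r + 1 := by
    have : 1 ≤ 2 ^ κ := Nat.one_le_two_pow
    have : (z + 2) * 1 ≤ (z + 2) * 2 ^ κ := Nat.mul_le_mul_left _ this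
    omega
  refine ⟨r, z, (κ + 1) * (c - 1), ⟨hp, hbig⟩, ?_, ?_⟩
  · obtain ⟨c', rfl⟩ : ∃ c', c = c' + 1 := ⟨c - 1, by omega⟩
    rw [Nat.add_sub_cancel]
    have h3 : z + (n + κ) = (κ + 1) * c' * (r + 1) + (κ + 1) * (r + 1) := by
      rw [hz, hc]; ring
    have h4 : (κ + 1) * (r + 1) = κ * r + κ + (r + 1) := by ring
    omega
  · have hC : 2 * (κ + 1) ≤ (κ + 3) * 2 ^ κ := by
      rcases Nat.eq_zero_or_pos κ with h0 | h0
      · rw [h0]; norm_num
      · have h3 : 2 ≤ 2 ^ κ := by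
          calc 2 = 2 ^ 1 := by norm_num
            _ ≤ 2 ^ κ := Nat.pow_le_pow_right two_pos h0
        calc 2 * (κ + 1) ≤ (κ + 3) * 2 := by omega
          _ ≤ (κ + 3) * 2 ^ κ := Nat.mul_le_mul_left _ h3
    have hn : n ≤ (κ + 1) * (2 * s ^ 4) := by
      have h3 : h + 1 ≤ (s + 1) ^ 4 := h2
      have h4 : (s + 1) ^ 4 ≤ 2 * s ^ 4 := by
        obtain ⟨x, rfl⟩ : ∃ x, s = x + 6 := ⟨s - 6, by omega⟩
        ring_nf
        nlinarith [sq_nonneg x, Nat.zero_le x, Nat.zero_le (x ^ 3)]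
      have h5 : (κ + 1) * (h + 1) ≤ (κ + 1) * (2 * s ^ 4) := Nat.mul_le_mul_left _ (h3.trans h4)
      omega
    have hp3 : 2 * (κ + 1) * s ^ 3 ≤ r + 1 := by
      rw [hW] at hpC
      exact (Nat.mul_le_mul_right _ hC).trans hpC.le
    calc n ^ 3 ≤ ((κ + 1) * (2 * s ^ 4)) ^ 3 := Nat.pow_le_pow_left hn 3
      _ = 8 * (κ + 1) ^ 3 * s ^ 12 := by ring
      _ ≤ 16 * (κ + 1) ^ 4 * s ^ 12 := by
          apply Nat.mul_le_mul_right
          have h3 : (κ + 1) ^ 3 ≤ (κ + 1) ^ 4 := Nat.pow_le_pow_right (Nat.succ_pos κ) (by norm_num)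
          omega
      _ = (2 * (κ + 1) * s ^ 3) ^ 4 := by ring
      _ ≤ (r + 1) ^ 4 := Nat.pow_le_pow_left hp3 4

end Pool.Agent.Helper82.LS.Num
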