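import Mathlib
import Pool.Agent.Helper82.LS.Num

/-!
The asymptotic choice of the parameters.
-/

namespace Pool.Agent.Helper82.LS.Asym

open Finset Real
open Pool.Agent.Helper82.LS.Main Pool.Agent.Helper82.LS.Num

lemma cube_le_exp {x : ℝ} (hx : 0 ≤ x) (c : ℝ) (hc : 0 < c) : (x / c) ^ 3 ≤ exp (3 * x / c) := by
  have h1 : x / c ≤ exp (x / c) := by
    have := add_one_le_exp (x / c)
    linarith
  have h2 : exp (3 * x / c) = exp (x / c) ^ 3 := by
    rw [← exp_nat_mul]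
    congr 1
    push_cast
    ring
  rw [h2]
  exact pow_le_pow_left₀ (by positivity) h1 3

/-- the parameters for all large `n` -/
lemma all_aux {x₀ : ℝ} (hx₀ : ∀ x : ℝ, x₀ ≤ x → (Nat.primeCounting ⌊x⌋₊ : ℝ) ≤ 3 / 2 * x / log x)
    (hx₁ : 1 ≤ x₀) {n : ℕ} (hY : 10 ^ 6 ≤ log (log n)) (hn : (x₀ + 2) ^ 8 ≤ n) :
    ∃ κ r z m : ℕ, Par r z κ ∧ n = m * (r + 1) + ((r + 1 - z) + κ * r) ∧
      (2 * n : ℝ) ^ log (log (2 * n)) * (2 * ((κ + 1) * (r + 1))) ≤ (r + 1) ^ κ := by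
  obtain ⟨y, hy⟩ : ∃ y, y = log n := ⟨_, rfl⟩
  obtain ⟨Y, hYd⟩ : ∃ Y, Y = log y := ⟨_, rfl⟩
  rw [← hy, ← hYd] at hY
  have hn1 : (1 : ℝ) ≤ n := by
    have : (1 : ℝ) ≤ (x₀ + 2) ^ 8 := one_le_pow₀ (by linarith)
    linarith
  have hn0 : (0 : ℝ) < n := by linarith
  have hy0 : 0 < y := by
    have h1 : 0 ≤ y := by rw [hy]; exact log_nonneg hn1
    rcases h1.lt_or_eq with h2 | h2
    · exact h2
    · rw [← h2, log_zero] at hYd
      norm_num [hYd] at hY
  have hyY : y = exp Y := by rw [hYd, exp_log hy0]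
  have hny : (n : ℝ) = exp y := by rw [hy, exp_log hn0]
  have hY0 : 0 < Y := by linarith
  -- size comparisons
  have hy4 : 4 * Y ^ 2 ≤ y := by
    have h1 := cube_le_exp hY0.le 3 (by norm_num)
    have h2 : 3 * Y / 3 = Y := by ring
    rw [h2, ← hyY] at h1
    have h3 : 4 * Y ^ 2 ≤ (Y / 3) ^ 3 := by
      have : (Y / 3) ^ 3 = Y ^ 2 * (Y / 27) := by ring
      rw [this]
      nlinarith [sq_nonneg Y]
    linarith
  have hYbig : (10 : ℝ) ^ 12 ≤ Y ^ 2 := by nlinarith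
  have hny' : y ≤ n := by
    rw [hny]
    have := add_one_le_exp y
    linarith
  -- kappa
  obtain ⟨κ, hκ⟩ : ∃ κ : ℕ, κ = ⌈7 / 5 * Y⌉₊ := ⟨_, rfl⟩
  have hκ1 : 7 / 5 * Y ≤ κ := by rw [hκ]; exact Nat.le_ceil _
  have hκ2 : (κ : ℝ) < 7 / 5 * Y + 1 := by
    rw [hκ]
    exact Nat.ceil_lt_add_one (by positivity)
  -- h and s
  obtain ⟨h, hh⟩ : ∃ h, h = (n + κ) / (κ + 1) := ⟨_, rfl⟩
  have hnh : n ≤ (κ + 1) * h := by
    have h1 : n + κ < (κ + 1) * (h + 1) := by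
      rw [hh]; exact Nat.lt_mul_div_succ _ (Nat.succ_pos κ)
    have h2 : (κ + 1) * (h + 1) = (κ + 1) * h + (κ + 1) := by ring
    omega
  have hnh' : (n : ℝ) ≤ (κ + 1) * h := by exact_mod_cast hnh
  have hκn : ((κ : ℝ) + 1) ^ 2 ≤ n := by
    have h1 : (κ : ℝ) + 1 ≤ 2 * Y := by linarith
    have h2 : ((κ : ℝ) + 1) ^ 2 ≤ (2 * Y) ^ 2 := pow_le_pow_left₀ (by positivity) h1 2
    have h3 : (2 * Y) ^ 2 = 4 * Y ^ 2 := by ring
    linarith
  have hnh2 : (n : ℝ) ≤ (h : ℝ) ^ 2 := by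
    have h1 : (n : ℝ) ^ 2 ≤ ((κ + 1) * h) ^ 2 := pow_le_pow_left₀ hn0.le hnh' 2
    have h2 : (n : ℝ) * n ≤ n * (h : ℝ) ^ 2 := by
      calc (n : ℝ) * n = (n : ℝ) ^ 2 := by ring
        _ ≤ ((κ + 1) * h) ^ 2 := h1
        _ = ((κ : ℝ) + 1) ^ 2 * (h : ℝ) ^ 2 := by ring
        _ ≤ n * (h : ℝ) ^ 2 := mul_le_mul_of_nonneg_right hκn (by positivity)
    exact le_of_mul_le_mul_left h2 hn0
  obtain ⟨s, hs⟩ : ∃ s, s = Nat.sqrt (Nat.sqrt h) := ⟨_, rfl⟩
  have hs1 : s ^ 4 ≤ h := by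
    have h1 : s ^ 2 ≤ Nat.sqrt h := by rw [hs]; exact Nat.sqrt_le' _
    calc s ^ 4 = (s ^ 2) ^ 2 := by ring
      _ ≤ (Nat.sqrt h) ^ 2 := Nat.pow_le_pow_left h1 2
      _ ≤ h := Nat.sqrt_le' _
  have hs2 : h < (s + 1) ^ 4 := by
    have h1 : Nat.sqrt h < (s + 1) ^ 2 := by rw [hs]; exact Nat.lt_succ_sqrt' _
    have h2 : h < (Nat.sqrt h + 1) ^ 2 := Nat.lt_succ_sqrt' _
    calc h < (Nat.sqrt h + 1) ^ 2 := h2
      _ ≤ ((s + 1) ^ 2) ^ 2 := Nat.pow_le_pow_left h1 2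
      _ = (s + 1) ^ 4 := by ring
  have hns : (n : ℝ) ≤ ((s : ℝ) + 1) ^ 8 := by
    have h1 : (h : ℝ) ≤ ((s : ℝ) + 1) ^ 4 := by exact_mod_cast hs2.le
    calc (n : ℝ) ≤ (h : ℝ) ^ 2 := hnh2
      _ ≤ (((s : ℝ) + 1) ^ 4) ^ 2 := pow_le_pow_left₀ (by positivity) h1 2
      _ = ((s : ℝ) + 1) ^ 8 := by ring
  have hsx : x₀ + 1 ≤ s := by
    by_contra hcon
    push Not at hcon
    have h1 : ((s : ℝ) + 1) ^ 8 < (x₀ + 2) ^ 8 := pow_lt_pow_left₀ (by linarith) (by positivity)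
      (by norm_num)
    linarith
  have hs7 : (6 : ℝ) ≤ s := by
    by_contra hcon
    push Not at hcon
    have h1 : ((s : ℝ) + 1) ^ 8 ≤ 7 ^ 8 := pow_le_pow_left₀ (by positivity) (by linarith) 8
    have h2 : (4 : ℝ) * 10 ^ 12 ≤ 7 ^ 8 := by linarith
    norm_num at h2
  have hs6 : 6 ≤ s := by exact_mod_cast hs7
  have hspos : (0 : ℝ) < s := by linarith
  -- logarithms
  have hlogs : y / 8 - 1 ≤ log s := by
    have h1 : log n ≤ 8 * log ((s : ℝ) + 1) := by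
      have := log_le_log hn0 hns
      rwa [log_pow] at this
    have h2 : log ((s : ℝ) + 1) ≤ log 2 + log s := by
      rw [← log_mul (by norm_num) hspos.ne']
      exact log_le_log (by positivity) (by linarith)
    have h3 : log 2 ≤ 1 := by have := log_two_lt_d9; linarith
    rw [← hy] at h1
    linarith
  obtain ⟨W, hW⟩ : ∃ W : ℝ, W = (s : ℝ) ^ 3 := ⟨_, rfl⟩
  have hW1 : 1 ≤ W := by rw [hW]; exact one_le_pow₀ (by linarith)
  have hsW : (s : ℝ) ≤ W := by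
    rw [hW]
    calc (s : ℝ) = s ^ 1 := by ring
      _ ≤ s ^ 3 := pow_le_pow_right₀ (by linarith) (by norm_num)
  have hlogW : y / 4 ≤ log W := by
    rw [hW, log_pow]
    push_cast
    linarith
  -- the constant C
  obtain ⟨C, hC⟩ : ∃ C : ℝ, C = ((κ : ℝ) + 3) * 2 ^ κ := ⟨_, rfl⟩
  have hC1 : 1 ≤ C := by
    have h1 : (1 : ℝ) ≤ 2 ^ κ := one_le_pow₀ (by norm_num)
    rw [hC]
    nlinarith only [hY, hκ1, h1, (Nat.cast_nonneg κ : (0 : ℝ) ≤ κ)]
  have hCy : 30 * C < y := by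
    have h1 : (2 : ℝ) ^ κ ≤ 2 * exp (49 / 50 * Y) := by
      have h2 : (2 : ℝ) ^ κ = exp (log 2 * κ) := by
        rw [← rpow_natCast, rpow_def_of_pos (by norm_num)]
      have h3 : (2 : ℝ) * exp (49 / 50 * Y) = exp (log 2 + 49 / 50 * Y) := by
        rw [exp_add, exp_log (by norm_num)]
      rw [h2, h3, exp_le_exp]
      have h4 : log 2 < 0.6931471808 := log_two_lt_d9
      have h5 : 0 < log 2 := log_pos (by norm_num)
      have h6 : log 2 * κ ≤ log 2 * (7 / 5 * Y + 1) := mul_le_mul_of_nonneg_left hκ2.le h5.le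
      nlinarith only [hY, hκ2, h4, h5]
    have h2 : C ≤ (2 * Y) * (2 * exp (49 / 50 * Y)) := by
      rw [hC]
      exact mul_le_mul (by linarith) h1 (by positivity) (by positivity)
    have h3 : 120 * Y < exp (1 / 50 * Y) := by
      have h4 := cube_le_exp hY0.le 150 (by norm_num)
      have h5 : 3 * Y / 150 = 1 / 50 * Y := by ring
      rw [h5] at h4
      have h6 : (Y / 150) ^ 3 = Y * (Y ^ 2 / 3375000) := by ring
      rw [h6] at h4
      have h7 : Y * 120 < Y * (Y ^ 2 / 3375000) := by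
        apply mul_lt_mul_of_pos_left _ hY0
        rw [lt_div_iff₀ (by norm_num)]
        linarith
      linarith
    have h4 : y = exp (1 / 50 * Y) * exp (49 / 50 * Y) := by
      rw [hyY, ← exp_add]
      congr 1
      ring
    calc 30 * C ≤ 30 * ((2 * Y) * (2 * exp (49 / 50 * Y))) := by linarith
      _ = 120 * Y * exp (49 / 50 * Y) := by ring
      _ < exp (1 / 50 * Y) * exp (49 / 50 * Y) := mul_lt_mul_of_pos_right h3 (exp_pos _)
      _ = y := h4.symm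
  -- the prime counting condition
  have hπ : 5 * Nat.primeCounting ((κ + 3) * 2 ^ κ * s ^ 3) < s ^ 3 := by
    have hCW : C * W = (((κ + 3) * 2 ^ κ * s ^ 3 : ℕ) : ℝ) := by
      rw [hC, hW]; push_cast; ring
    have hWC : W ≤ C * W := by nlinarith only [hC1, hW1]
    have h1 := hx₀ (C * W) (by linarith)
    have hfl : ⌊C * W⌋₊ = (κ + 3) * 2 ^ κ * s ^ 3 := by
      rw [hCW]; exact Nat.floor_natCast _
    rw [hfl] at h1
    have h2 : y / 4 ≤ log (C * W) := hlogW.trans (log_le_log (by linarith) hWC)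
    have h3 : 3 / 2 * (C * W) / log (C * W) ≤ 3 / 2 * (C * W) / (y / 4) :=
      div_le_div_of_nonneg_left (by positivity) (by positivity) h2
    have h4 : 5 * (3 / 2 * (C * W) / (y / 4)) < W := by
      have : 5 * (3 / 2 * (C * W) / (y / 4)) = (30 * C) / y * W := by field_simp; ring
      rw [this]
      have h5 : (30 * C) / y < 1 := by rwa [div_lt_one hy0]
      nlinarith only [h5, hW1]
    have h5 : ((5 * Nat.primeCounting ((κ + 3) * 2 ^ κ * s ^ 3) : ℕ) : ℝ) < ((s ^ 3 : ℕ) : ℝ) := by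
      push_cast
      rw [← hW]
      linarith only [h1, h3, h4]
    exact_mod_cast h5
  rw [hh] at hs1 hs2
  obtain ⟨r, z, m, hP, hnm, hp4⟩ := exists_par hs6 hs1 hs2 hπ
  refine ⟨κ, r, z, m, hP, hnm, ?_⟩
  -- the final inequality
  obtain ⟨p, hp⟩ : ∃ p : ℝ, p = (r : ℝ) + 1 := ⟨_, rfl⟩
  have hp4' : (n : ℝ) ^ 3 ≤ p ^ 4 := by rw [hp]; exact_mod_cast hp4
  have hp0 : 0 < p := by rw [hp]; positivity
  have hlogp : 3 / 4 * y ≤ log p := by
    have h1 := log_le_log (by positivity) hp4'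
    rw [log_pow, log_pow, ← hy] at h1
    push_cast at h1
    linarith
  have hlog2n : log (2 * n) ≤ y + 1 := by
    rw [log_mul (by norm_num) hn0.ne', ← hy]
    have := log_two_lt_d9
    linarith only [this]
  have hlog2n0 : 0 < log (2 * n) := log_pos (by linarith)
  have hll : log (log (2 * n)) ≤ Y + 1 / y := by
    have h1 : log (log (2 * n)) ≤ log (y + 1) := log_le_log hlog2n0 hlog2n
    have h2 : y + 1 = y * (1 + 1 / y) := by field_simp
    rw [h2, log_mul hy0.ne' (by positivity), ← hYd] at h1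
    have h3 := log_le_sub_one_of_pos (show (0 : ℝ) < 1 + 1 / y by positivity)
    linarith only [h1, h3]
  have hκlog : log (2 * ((κ : ℝ) + 1)) ≤ 3 * Y + 4 := by
    have h1 := log_le_sub_one_of_pos (show (0 : ℝ) < 2 * ((κ : ℝ) + 1) by positivity)
    linarith only [hY, hκ2, h1]
  have h1y : 1 / y ≤ 1 := by
    rw [div_le_one hy0]
    nlinarith only [hy4, hYbig]
  have hkey : log (2 * n) * log (log (2 * n)) + log (2 * ((κ : ℝ) + 1)) + log p ≤ κ * log p := by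
    have h1 : log (2 * n) * log (log (2 * n)) ≤ (y + 1) * (Y + 1 / y) := by
      have h2 : log (2 * n) * log (log (2 * n)) ≤ log (2 * n) * (Y + 1 / y) :=
        mul_le_mul_of_nonneg_left hll hlog2n0.le
      have h3 : log (2 * n) * (Y + 1 / y) ≤ (y + 1) * (Y + 1 / y) :=
        mul_le_mul_of_nonneg_right hlog2n (by positivity)
      linarith only [h2, h3]
    have h2 : (y + 1) * (Y + 1 / y) = y * Y + Y + 1 + 1 / y := by field_simp; ring
    have h3 : (7 / 5 * Y - 1) * (3 / 4 * y) ≤ (κ - 1) * log p := by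
      apply mul_le_mul (by linarith only [hκ1]) hlogp (by positivity)
      linarith only [hY, hκ1]
    have h4 : (7 / 5 * Y - 1) * (3 / 4 * y) = y * Y + y * (1 / 20 * Y - 3 / 4) := by ring
    have h5 : y * 1 ≤ y * (1 / 20 * Y - 3 / 4) := mul_le_mul_of_nonneg_left (by linarith only [hY]) hy0.le
    have h6 : 4 * Y + 7 ≤ y := by nlinarith only [hY, hy4]
    nlinarith only [hκlog, h1y, h1, h2, h3, h5, h6]
  have hL : (2 * n : ℝ) ^ log (log (2 * n)) * (2 * ((κ + 1) * (r + 1)))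
      = exp (log (2 * n) * log (log (2 * n)) + log (2 * ((κ : ℝ) + 1)) + log p) := by
    rw [exp_add, exp_add, exp_log hp0, exp_log (by positivity), rpow_def_of_pos (by positivity), hp]
    ring
  have hR : ((r : ℝ) + 1) ^ κ = exp (κ * log p) := by
    rw [← hp, exp_nat_mul, exp_log hp0]
  rw [hL, hR]
  exact exp_le_exp.mpr hkey

/-- All large `n`. -/
theorem num_all : ∃ n₀ : ℕ, ∀ n : ℕ, n₀ ≤ n → ∃ κ r z m : ℕ, Par r z κ ∧
    n = m * (r + 1) + ((r + 1 - z) + κ * r) ∧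
      (2 * n : ℝ) ^ log (log (2 * n)) * (2 * ((κ + 1) * (r + 1))) ≤ (r + 1) ^ κ := by
  have h1 : ∀ᶠ x : ℝ in Filter.atTop, (Nat.primeCounting ⌊x⌋₊ : ℝ) ≤ 3 / 2 * x / log x := by
    filter_upwards [Chebyshev.eventually_primeCounting_le (ε := 1 / 100) (by norm_num),
      Filter.eventually_ge_atTop 2] with x hx hx2
    refine hx.trans ?_
    have h2 : 0 < log x := log_pos (by linarith)
    apply div_le_div_of_nonneg_right _ h2.le
    apply mul_le_mul_of_nonneg_right _ (by linarith)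
    have h3 : log 4 = 2 * log 2 := by
      rw [show (4 : ℝ) = 2 ^ 2 by norm_num, log_pow]; push_cast; ring
    have := log_two_lt_d9
    rw [h3]
    linarith
  obtain ⟨x₁, hx₁⟩ := Filter.eventually_atTop.mp h1
  have h2 : Filter.Tendsto (fun n : ℕ => log (log (n : ℝ))) Filter.atTop Filter.atTop :=
    tendsto_log_atTop.comp (tendsto_log_atTop.comp tendsto_natCast_atTop_atTop)
  obtain ⟨n₁, hn₁⟩ := Filter.eventually_atTop.mp (h2.eventually_ge_atTop (10 ^ 6))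
  refine ⟨max n₁ ⌈(max x₁ 1 + 2) ^ 8⌉₊, fun n hn => ?_⟩
  refine all_aux (x₀ := max x₁ 1) (fun x hx => hx₁ x ((le_max_left _ _).trans hx))
    (le_max_right _ _) (hn₁ n ((le_max_left _ _).trans hn)) ?_
  exact (Nat.le_ceil _).trans (by exact_mod_cast (le_max_right _ _).trans hn)

/-- Infinitely many `n` with a better bound. -/
theorem num_inf (n₀ : ℕ) : ∃ n : ℕ, n₀ ≤ n ∧ ∃ κ r z m : ℕ, Par r z κ ∧
    n = m * (r + 1) + ((r + 1 - z) + κ * r) ∧
      (2 * n : ℝ) ^ log (2 * n) * (2 * ((κ + 1) * (r + 1))) ≤ (r + 1) ^ κ := by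
  obtain ⟨p, hp1, hp⟩ := Nat.exists_infinite_primes (max n₀ ⌈exp (10 ^ 4)⌉₊)
  have hpn : n₀ ≤ p := (le_max_left _ _).trans hp1
  have hpe : exp (10 ^ 4) ≤ p :=
    (Nat.le_ceil _).trans (by exact_mod_cast (le_max_right _ _).trans hp1)
  have hp2 : 2 < p := by
    have h1 : (10 : ℝ) ^ 4 + 1 ≤ exp (10 ^ 4) := add_one_le_exp _
    have h2 : (2 : ℝ) < p := by linarith
    exact_mod_cast h2
  obtain ⟨r, rfl⟩ : ∃ r, p = r + 1 := ⟨p - 1, by omega⟩
  obtain ⟨κ, hκ⟩ : ∃ κ, Nat.log 2 (r + 1) = κ + 1 := by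
    have h1 : 1 ≤ Nat.log 2 (r + 1) := Nat.log_pos (by norm_num) (by omega)
    exact ⟨Nat.log 2 (r + 1) - 1, by omega⟩
  have hle : 2 ^ (κ + 1) ≤ r + 1 := by rw [← hκ]; exact Nat.pow_log_le_self 2 (by omega)
  have hlt : r + 1 < 2 ^ (κ + 2) := by
    have := Nat.lt_pow_succ_log_self (b := 2) (by norm_num) (r + 1)
    rwa [hκ] at this
  have hne : 2 ^ (κ + 1) ≠ r + 1 := by
    intro h0
    have h1 : (2 : ℕ) ∣ r + 1 := by rw [← h0]; exact dvd_pow_self 2 (Nat.succ_ne_zero κ)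
    have h2 := (Nat.prime_dvd_prime_iff_eq Nat.prime_two hp).mp h1
    omega
  have hP : Par r 0 κ := ⟨hp, by
    have h1 : frq 0 κ = 2 ^ (κ + 1) := by rw [frq, pow_succ]; ring
    rw [h1]
    exact lt_of_le_of_ne hle hne⟩
  refine ⟨(r + 1) + κ * r, by omega, κ, r, 0, 0, hP, by simp, ?_⟩
  obtain ⟨q, hq⟩ : ∃ q : ℝ, q = (r : ℝ) + 1 := ⟨_, rfl⟩
  have hq0 : 0 < q := by rw [hq]; positivity
  obtain ⟨x, hx⟩ : ∃ x, x = log q := ⟨_, rfl⟩
  have hx4 : (10 : ℝ) ^ 4 ≤ x := by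
    rw [hx, le_log_iff_exp_le hq0, hq]
    exact_mod_cast hpe
  have hl2 : log 2 < 0.6931471808 := log_two_lt_d9
  have hl2' : 0.6931471803 < log 2 := log_two_gt_d9
  have hκ1 : x < (κ + 2) * log 2 := by
    have h1 : q < 2 ^ (κ + 2) := by rw [hq]; exact_mod_cast hlt
    have h2 := log_lt_log hq0 h1
    rw [log_pow] at h2
    push_cast at h2
    rw [hx]
    linarith
  have hκ2 : (κ + 1) * log 2 ≤ x := by
    have h1 : (2 : ℝ) ^ (κ + 1) ≤ q := by rw [hq]; exact_mod_cast hle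
    have h2 := log_le_log (by positivity) h1
    rw [log_pow] at h2
    push_cast at h2
    rw [hx]
    linarith
  have hκ0 : (0 : ℝ) ≤ κ := Nat.cast_nonneg κ
  have hκlow : 144 / 100 * x - 2 ≤ κ := by nlinarith
  have hκup : (κ : ℝ) + 1 ≤ 3 / 2 * x := by nlinarith
  obtain ⟨v, hv⟩ : ∃ v, v = log (2 * ((κ : ℝ) + 1)) := ⟨_, rfl⟩
  have hv0 : 0 ≤ v := by rw [hv]; exact log_nonneg (by linarith)
  have hv1 : v ≤ x / 100 := by
    rw [hv, log_le_iff_le_exp (by positivity)]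
    have h1 := cube_le_exp (show (0 : ℝ) ≤ x by linarith) 300 (by norm_num)
    have h2 : 3 * x / 300 = x / 100 := by ring
    rw [h2] at h1
    have h3 : 3 * x ≤ (x / 300) ^ 3 := by
      have : (x / 300) ^ 3 = x * (x ^ 2 / 27000000) := by ring
      rw [this]
      have h4 : (3 : ℝ) ≤ x ^ 2 / 27000000 := by
        rw [le_div_iff₀ (by norm_num)]
        nlinarith only [hx4, hl2, hl2']
      nlinarith only [hl2, hl2', h4, hx4]
    linarith
  obtain ⟨n, hn⟩ : ∃ n : ℝ, n = (((r + 1) + κ * r : ℕ) : ℝ) := ⟨_, rfl⟩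
  rw [← hn]
  have hnpos : 1 ≤ n := by
    rw [hn]
    push_cast
    nlinarith only [(Nat.cast_nonneg r : (0 : ℝ) ≤ r)]
  have hnle : 2 * n ≤ 2 * ((κ : ℝ) + 1) * q := by
    rw [hn, hq]
    push_cast
    nlinarith only [hx4, hl2, hl2', hκlow, (Nat.cast_nonneg r : (0 : ℝ) ≤ r)]
  have hlogn : log (2 * n) ≤ v + x := by
    rw [hv, hx, ← log_mul (by positivity) hq0.ne']
    exact log_le_log (by positivity) hnle
  have hlogn0 : 0 ≤ log (2 * n) := log_nonneg (by linarith)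
  have hkey : log (2 * n) * log (2 * n) + v + x ≤ κ * x := by
    have h1 : log (2 * n) * log (2 * n) ≤ (v + x) * (v + x) :=
      mul_le_mul hlogn hlogn hlogn0 (by linarith)
    have h2 : (v + x) * (v + x) ≤ (x / 100 + x) * (x / 100 + x) :=
      mul_le_mul (by linarith) (by linarith) (by linarith) (by linarith)
    have h3 : (144 / 100 * x - 2) * x ≤ κ * x := mul_le_mul_of_nonneg_right hκlow (by linarith)
    nlinarith only [hx4, hl2, hl2', hκlow, hv1, h1, h2, h3]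
  have hL : (2 * n : ℝ) ^ log (2 * n) * (2 * ((κ + 1) * (r + 1)))
      = exp (log (2 * n) * log (2 * n) + v + x) := by
    rw [exp_add, exp_add, hx, hv, exp_log hq0, exp_log (by positivity),
      rpow_def_of_pos (by positivity), hq]
    ring
  have hR : ((r : ℝ) + 1) ^ κ = exp (κ * x) := by
    rw [← hq, exp_nat_mul, hx, exp_log hq0]
  rw [hL, hR]
  exact exp_le_exp.mpr hkey

end Pool.Agent.Helper82.LS.Asym
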