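import Mathlib
import Pool.Agent.Helper82.LS.Asym

/-!
Isospectral sets of lens spaces: the definition and the explicit family.
-/

namespace Pool.Agent.Helper82.LS.Has

open Real
open Pool.Agent.Helper78.Geom Pool.Agent.Helper82.LS.Space Pool.Agent.Helper82.LS.Main
  Pool.Agent.Helper82.LS.Asym

/-- There is an isospectral set of at least `B` lens spaces of dimension `d` whose fundamental
groups are cyclic of order `o`, so that all members have the volume `vol(S^d) / o`. -/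
def HasIsospectralSet (d o : ℕ) (B : ℝ) : Prop :=
  ∃ F : Finset (Subgroup (O d)),
    (∀ Γ ∈ F, IsSpaceFormGroup Γ ∧ IsCyclic Γ ∧ Nat.card Γ = o) ∧
    (∀ Γ ∈ F, ∀ Γ' ∈ F, Γ ≠ Γ' → Isospectral Γ Γ' ∧ ¬ Isometric Γ Γ') ∧
    B ≤ F.card

/-- from the parameters to the isospectral set -/
lemma of_par {n κ r z m : ℕ} (hP : Par r z κ) (hn : n = m * (r + 1) + ((r + 1 - z) + κ * r))
    {B : ℝ} (hB : B * (2 * ((κ + 1) * (r + 1))) ≤ ((r : ℝ) + 1) ^ κ) {d : ℕ} (hd : d + 1 = 2 * n)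
    (o₀ : ℕ) : ∃ o, o₀ ≤ o ∧ HasIsospectralSet d o B := by
  obtain ⟨F, hF, hc⟩ := family hP m o₀ (d := d) (by rw [hd, hn])
  refine ⟨ord r o₀, ?_, F, hF.form, hF.iso, ?_⟩
  · have h1 : 1 < r + 1 := hP.prime.one_lt
    have h2 : o₀ < (r + 1) ^ o₀ := Nat.lt_pow_self h1
    have h3 : (r + 1) ^ o₀ ≤ ord r o₀ := by
      have h4 : ord r o₀ = (r + 1) ^ (o₀ + 2) := by rw [ord]; ring
      rw [h4]
      exact Nat.pow_le_pow_right (Nat.succ_pos r) (by omega)
    omega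
  · have h1 : ((r : ℝ) + 1) ^ κ ≤ (2 * ((κ + 1) * (r + 1))) * (F.card : ℝ) := by exact_mod_cast hc
    have h2 : B * (2 * ((κ + 1) * (r + 1))) ≤ (F.card : ℝ) * (2 * ((κ + 1) * (r + 1))) := by
      linarith
    exact le_of_mul_le_mul_right h2 (by positivity)

lemma HasIsospectralSet.mono {d o : ℕ} {B B' : ℝ} (h : HasIsospectralSet d o B) (hB : B' ≤ B) :
    HasIsospectralSet d o B' := by
  obtain ⟨F, h1, h2, h3⟩ := h
  exact ⟨F, h1, h2, hB.trans h3⟩

/-- the explicit family -/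
theorem explicit (p κ z m d : ℕ) (hp : p.Prime) (hb : (z + 2) * 2 ^ κ < p)
    (hd : d + 1 + 2 * (κ + z) = 2 * ((m + κ + 1) * p)) (o₀ : ℕ) : ∃ o, o₀ ≤ o ∧
      HasIsospectralSet d o ((p : ℝ) ^ κ / (2 * ((κ + 1) * p))) := by
  have hp2 := hp.two_le
  obtain ⟨r, rfl⟩ : ∃ r, p = r + 1 := ⟨p - 1, by omega⟩
  have hP : Par r z κ := ⟨hp, hb⟩
  have hz := hP.hz
  have h1 : (m + κ + 1) * (r + 1) = m * (r + 1) + (κ * r + κ + (r + 1)) := by ring
  refine of_par hP (n := m * (r + 1) + ((r + 1 - z) + κ * r)) rfl ?_ (by omega) o₀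
  push_cast
  rw [div_mul_cancel₀]
  positivity

end Pool.Agent.Helper82.LS.Has
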