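import Pool.Agent.Helper82.LS.Has

/-!
The isospectral sets of lens spaces, with short definitions.
-/

namespace Pool.Agent.Helper82.LS.Slim

open scoped ContDiff
open Real Filter Topology

/-- The Euclidean space `ℝ^(d+1)`. -/
abbrev E (d : ℕ) := EuclideanSpace ℝ (Fin (d + 1))

/-- The unit sphere `S^d` of `ℝ^(d+1)`. -/
abbrev S (d : ℕ) : Set (E d) := Metric.sphere 0 1

/-- The orthogonal group `O(d+1)`. -/
abbrev O (d : ℕ) : Type := Matrix.orthogonalGroup (Fin (d + 1)) ℝ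

/-- The action of `O(d+1)` on `ℝ^(d+1)` by matrix-vector multiplication. -/
def app {d : ℕ} (g : O d) (x : E d) : E d :=
  WithLp.toLp 2 ((g : Matrix (Fin (d + 1)) (Fin (d + 1)) ℝ).mulVec (WithLp.ofLp x))

/-- `Γ` is a finite subgroup of `O(d+1)` which acts freely on the sphere `S^d`. -/
def IsSpaceFormGroup {d : ℕ} (Γ : Subgroup (O d)) : Prop :=
  Finite Γ ∧ ∀ g ∈ Γ, g ≠ 1 → ∀ x : S d, app g x ≠ x

/-- The spherical space form `S^d / Γ` (the set of orbits). -/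
def SpaceForm {d : ℕ} (Γ : Subgroup (O d)) : Type :=
  Quot fun x y : S d => ∃ g ∈ Γ, app g x = y

/-- The orbit of a point of the sphere. -/
def orb {d : ℕ} (Γ : Subgroup (O d)) (x : S d) : SpaceForm Γ := Quot.mk _ x

/-- The distance of the quotient metric on `S^d / Γ`: the least angle between representatives. -/
noncomputable def qdist {d : ℕ} (Γ : Subgroup (O d)) (p q : SpaceForm Γ) : ℝ :=
  sInf {a : ℝ | ∃ x y : S d, orb Γ x = p ∧ orb Γ y = q ∧
    a = InnerProductGeometry.angle (x : E d) (y : E d)}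

/-- `S^d / Γ` and `S^d / Γ'` are isometric. -/
def Isometric {d : ℕ} (Γ Γ' : Subgroup (O d)) : Prop :=
  ∃ φ : SpaceForm Γ ≃ SpaceForm Γ', ∀ p q, qdist Γ' (φ p) (φ q) = qdist Γ p q

/-- `f` is a smooth complex-valued function on `S^d / Γ` with `Δ f = -lam f`, where `Δ` is the
Laplace-Beltrami operator: the function `F` on `ℝ^(d+1) ∖ {0}` with `F (t x) = f [x]` for `t > 0`
and `x ∈ S^d` is smooth, and its Euclidean Laplacian at `x ∈ S^d` is `-lam f [x]`. -/
def IsEigenfunction {d : ℕ} {Γ : Subgroup (O d)} (lam : ℝ) (f : SpaceForm Γ → ℂ) : Prop :=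
  ∃ F : E d → ℂ, ContDiffOn ℝ ∞ F {0}ᶜ ∧ ∀ x : S d,
    (∀ t : ℝ, 0 < t → F (t • (x : E d)) = f (orb Γ x)) ∧
      Laplacian.laplacian F (x : E d) = -(lam : ℂ) * f (orb Γ x)

/-- The multiplicity of `lam` as an eigenvalue of the Laplace-Beltrami operator of `S^d / Γ`: the
dimension of the space of the functions `f` as above. -/
noncomputable def mult {d : ℕ} (Γ : Subgroup (O d)) (lam : ℝ) : ℕ :=
  Set.finrank ℂ {f : SpaceForm Γ → ℂ | IsEigenfunction lam f}

/-- `S^d / Γ` and `S^d / Γ'` are isospectral. -/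
def Isospectral {d : ℕ} (Γ Γ' : Subgroup (O d)) : Prop := ∀ lam : ℝ, mult Γ lam = mult Γ' lam

/-- There is an isospectral set of at least `B` lens spaces of dimension `d` whose fundamental
groups are cyclic of order `o`, so that all members have the volume `vol(S^d) / o`. -/
def HasIsospectralSet (d o : ℕ) (B : ℝ) : Prop :=
  ∃ F : Finset (Subgroup (O d)),
    (∀ Γ ∈ F, IsSpaceFormGroup Γ ∧ IsCyclic Γ ∧ Nat.card Γ = o) ∧
    (∀ Γ ∈ F, ∀ Γ' ∈ F, Γ ≠ Γ' → Isospectral Γ Γ' ∧ ¬ Isometric Γ Γ') ∧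
    B ≤ F.card

lemma isEig_iff {d : ℕ} {Γ : Subgroup (O d)} (lam : ℝ) (f : SpaceForm Γ → ℂ) :
    IsEigenfunction lam f ↔ Space.IsEigenfunction (d := d) (Γ := Γ) lam f := by
  constructor
  · rintro ⟨F, h1, h2⟩
    have hF : ∀ y : E d, y ≠ 0 → Space.lift (d := d) (Γ := Γ) f y = F y := by
      intro y hy
      rw [Space.lift_ne f hy]
      have h3 := (h2 (Space.dir y hy)).1 ‖y‖ (norm_pos_iff.2 hy)
      have h4 : ‖y‖ • ((Space.dir y hy : S d) : E d) = y := by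
        change ‖y‖ • (‖y‖⁻¹ • y) = y
        rw [smul_smul, mul_inv_cancel₀ (norm_ne_zero_iff.2 hy), one_smul]
      rw [h4] at h3
      exact h3.symm
    refine ⟨h1.congr fun y hy => hF y hy, fun x => Eq.trans ?_ (h2 x).2⟩
    have h5 : Space.lift (d := d) (Γ := Γ) f =ᶠ[𝓝 (x : E d)] F := by
      filter_upwards [isOpen_compl_singleton.mem_nhds (Space.S_ne x)] with y hy
      exact hF y hy
    exact (InnerProductSpace.laplacian_congr_nhds h5).self_of_nhds
  · rintro ⟨h1, h2⟩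
    refine ⟨Space.lift (d := d) (Γ := Γ) f, h1, fun x => ⟨fun t ht => ?_, h2 x⟩⟩
    rw [Space.lift_hom f ht, Space.lift_S]
    rfl

lemma mult_eq {d : ℕ} (Γ : Subgroup (O d)) (lam : ℝ) : mult Γ lam = Space.mult (d := d) Γ lam := by
  have h : {f : SpaceForm Γ → ℂ | IsEigenfunction lam f} =
      {f : SpaceForm Γ → ℂ | Space.IsEigenfunction (d := d) (Γ := Γ) lam f} := by
    ext f
    exact isEig_iff lam f
  unfold mult Set.finrank
  rw [h]
  exact congrArg (fun p : Submodule ℂ (Pool.Agent.Helper78.Geom.SpaceForm (d := d) Γ → ℂ) =>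
    Module.finrank ℂ p) (Submodule.span_eq (Space.eigenspace (d := d) Γ lam))

lemma isospectral_of {d : ℕ} {Γ Γ' : Subgroup (O d)} (h : Space.Isospectral (d := d) Γ Γ') :
    Isospectral Γ Γ' := fun lam => by
  rw [mult_eq, mult_eq]
  exact h lam

lemma has_of {d o : ℕ} {B : ℝ} (h : Has.HasIsospectralSet d o B) : HasIsospectralSet d o B := by
  obtain ⟨F, h1, h2, h3⟩ := h
  exact ⟨F, h1, fun Γ hΓ Γ' hΓ' hne => ⟨isospectral_of (h2 Γ hΓ Γ' hΓ' hne).1,
    (h2 Γ hΓ Γ' hΓ' hne).2⟩, h3⟩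

open Pool.Agent.Helper82.LS.Asym

open Pool.Agent.Helper82.LS.Has (of_par)

/-- For all sufficiently large odd `d` there are isospectral sets of at least
`d ^ (log (log d))` lens spaces of dimension `d` with groups of arbitrarily large order. -/
theorem large : ∃ d₀ : ℕ, ∀ d : ℕ, d₀ ≤ d → Odd d → ∀ o₀ : ℕ, ∃ o, o₀ ≤ o ∧
    HasIsospectralSet d o ((d : ℝ) ^ log (log d)) := by
  obtain ⟨n₀, h⟩ := num_all
  refine ⟨2 * n₀ + 3, fun d hd hodd o₀ => ?_⟩
  obtain ⟨k, hk⟩ := hodd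
  have hdn : d + 1 = 2 * (k + 1) := by omega
  obtain ⟨κ, r, z, m, hP, hn, hB⟩ := h (k + 1) (by omega)
  obtain ⟨o, ho, hF⟩ := of_par hP hn hB hdn o₀
  refine ⟨o, ho, has_of (hF.mono ?_)⟩
  have hd3 : (3 : ℝ) ≤ d := by exact_mod_cast (by omega : 3 ≤ d)
  have he : (d : ℝ) ≤ 2 * ((k + 1 : ℕ) : ℝ) := by
    have : d ≤ 2 * (k + 1) := by omega
    exact_mod_cast this
  have hlog : 1 ≤ log d := by
    rw [le_log_iff_exp_le (by linarith)]
    exact (exp_one_lt_d9.le.trans (by norm_num)).trans hd3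
  have h1 : (d : ℝ) ^ log (log d) ≤ (2 * ((k + 1 : ℕ) : ℝ)) ^ log (log d) :=
    rpow_le_rpow (by linarith) he (log_nonneg hlog)
  refine h1.trans (rpow_le_rpow_of_exponent_le (by linarith) ?_)
  exact log_le_log (by linarith) (log_le_log (by linarith) he)

/-- For infinitely many odd `d` there are isospectral sets of at least `d ^ (log d)` lens spaces
of dimension `d` with groups of arbitrarily large order. -/
theorem quasi : ∀ d₀ : ℕ, ∃ d : ℕ, d₀ ≤ d ∧ Odd d ∧ ∀ o₀ : ℕ, ∃ o, o₀ ≤ o ∧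
    HasIsospectralSet d o ((d : ℝ) ^ log d) := by
  intro d₀
  obtain ⟨n, hn₀, κ, r, z, m, hP, hn, hB⟩ := num_inf (d₀ + 1)
  refine ⟨2 * n - 1, by omega, ⟨n - 1, by omega⟩, fun o₀ => ?_⟩
  have hdn : (2 * n - 1) + 1 = 2 * n := by omega
  obtain ⟨o, ho, hF⟩ := of_par hP hn hB hdn o₀
  refine ⟨o, ho, has_of (hF.mono ?_)⟩
  have hd1 : (1 : ℝ) ≤ ((2 * n - 1 : ℕ) : ℝ) := by exact_mod_cast (by omega : 1 ≤ 2 * n - 1)
  have he : ((2 * n - 1 : ℕ) : ℝ) ≤ 2 * (n : ℝ) := by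
    have : 2 * n - 1 ≤ 2 * n := by omega
    exact_mod_cast this
  have h1 : ((2 * n - 1 : ℕ) : ℝ) ^ log ((2 * n - 1 : ℕ) : ℝ)
      ≤ (2 * (n : ℝ)) ^ log ((2 * n - 1 : ℕ) : ℝ) :=
    rpow_le_rpow (by linarith) he (log_nonneg hd1)
  refine h1.trans (rpow_le_rpow_of_exponent_le (by linarith) ?_)
  exact log_le_log (by linarith) he

end Pool.Agent.Helper82.LS.Slim
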